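import Mathlib

/-!
# MP_ea7a64_al: elementary Ext calculus, part 1

`SES ι π` : short exact sequence.
`EZ S M` : the map `Ext¹(M,N) → Ext¹(M,N/S)` is zero.
-/

set_option autoImplicit false

open IsLocalRing

namespace EA7

section SES

variable {R : Type} [CommRing R]

/-- `0 → K → F → M → 0` is exact. -/
structure SES {K F M : Type} [AddCommGroup K] [Module R K] [AddCommGroup F] [Module R F]
    [AddCommGroup M] [Module R M] (ι : K →ₗ[R] F) (π : F →ₗ[R] M) : Prop where
  inj : Function.Injective ι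
  surj : Function.Surjective π
  exact : Function.Exact ι π

variable {K F M : Type} [AddCommGroup K] [Module R K] [AddCommGroup F] [Module R F]
    [AddCommGroup M] [Module R M]

theorem SES.of_surj (π : F →ₗ[R] M) (h : Function.Surjective π) :
    SES (LinearMap.ker π).subtype π where
  inj := Subtype.val_injective
  surj := h
  exact := by
    intro x
    constructor
    · intro hx
      exact ⟨⟨x, hx⟩, rfl⟩
    · rintro ⟨y, rfl⟩
      exact y.2

theorem SES.comp_eq_zero {ι : K →ₗ[R] F} {π : F →ₗ[R] M} (h : SES ι π) (x : K) : π (ι x) = 0 :=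
  h.exact.apply_apply_eq_zero x

theorem SES.exists_of_eq_zero {ι : K →ₗ[R] F} {π : F →ₗ[R] M} (h : SES ι π) {x : F}
    (hx : π x = 0) : ∃ y, ι y = x := (h.exact x).1 hx

/-- a map into `F` with zero composite factors through `K`. -/
theorem SES.lift {ι : K →ₗ[R] F} {π : F →ₗ[R] M} (h : SES ι π) {A : Type} [AddCommGroup A]
    [Module R A] (f : A →ₗ[R] F) (hf : ∀ a, π (f a) = 0) : ∃ g : A →ₗ[R] K, ∀ a, ι (g a) = f a := by
  choose g hg using fun a => h.exists_of_eq_zero (hf a)
  refine ⟨{ toFun := g, map_add' := ?_, map_smul' := ?_ }, hg⟩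
  · intro a b; apply h.inj; rw [map_add, hg, hg, hg, map_add]
  · intro r a; apply h.inj; rw [map_smul, hg, hg, map_smul]; rfl

/-- a map out of `F` killing `K` factors through `M`. -/
theorem SES.desc {ι : K →ₗ[R] F} {π : F →ₗ[R] M} (h : SES ι π) {A : Type} [AddCommGroup A]
    [Module R A] (f : F →ₗ[R] A) (hf : ∀ k, f (ι k) = 0) : ∃ g : M →ₗ[R] A, ∀ x, g (π x) = f x := by
  choose s hs using h.surj
  have key : ∀ x y, π x = π y → f x = f y := by
    intro x y hxy
    obtain ⟨k, hk⟩ := h.exists_of_eq_zero (x := x - y) (by rw [map_sub, hxy, sub_self])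
    have := hf k
    rw [hk, map_sub] at this
    exact sub_eq_zero.1 this
  refine ⟨{ toFun := fun m => f (s m), map_add' := ?_, map_smul' := ?_ }, ?_⟩
  · intro a b
    rw [← map_add]
    apply key
    rw [map_add, hs, hs, hs]
  · intro r a
    rw [RingHom.id_apply, ← map_smul]
    apply key
    rw [map_smul, hs, hs]
  · intro x
    exact key _ _ (hs _)

theorem SES.prod {ι : K →ₗ[R] F} {π : F →ₗ[R] M} (h : SES ι π)
    {K' F' M' : Type} [AddCommGroup K'] [Module R K'] [AddCommGroup F'] [Module R F']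
    [AddCommGroup M'] [Module R M'] {ι' : K' →ₗ[R] F'} {π' : F' →ₗ[R] M'} (h' : SES ι' π') :
    SES (ι.prodMap ι') (π.prodMap π') where
  inj := by
    intro a b hab
    simp only [LinearMap.prodMap_apply, Prod.mk.injEq] at hab
    exact Prod.ext (h.inj hab.1) (h'.inj hab.2)
  surj := by
    rintro ⟨a, b⟩
    obtain ⟨x, rfl⟩ := h.surj a
    obtain ⟨y, rfl⟩ := h'.surj b
    exact ⟨(x, y), rfl⟩
  exact := by
    rintro ⟨a, b⟩
    constructor
    · intro hx
      simp only [LinearMap.prodMap_apply, Prod.mk_eq_zero] at hx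
      obtain ⟨x, hx1⟩ := h.exists_of_eq_zero hx.1
      obtain ⟨y, hy1⟩ := h'.exists_of_eq_zero hx.2
      exact ⟨(x, y), by simp [hx1, hy1]⟩
    · rintro ⟨⟨x, y⟩, hxy⟩
      simp only [LinearMap.prodMap_apply, Prod.mk.injEq] at hxy
      simp only [LinearMap.prodMap_apply, Prod.mk_eq_zero]
      rw [← hxy.1, ← hxy.2]
      exact ⟨h.comp_eq_zero x, h'.comp_eq_zero y⟩

theorem SES.comp_equiv {ι : K →ₗ[R] F} {π : F →ₗ[R] M} (h : SES ι π)
    {M' : Type} [AddCommGroup M'] [Module R M'] (e : M ≃ₗ[R] M') :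
    SES ι (e.toLinearMap ∘ₗ π) where
  inj := h.inj
  surj := e.surjective.comp h.surj
  exact := by
    intro x
    constructor
    · intro hx
      apply (h.exact x).1
      simpa using hx
    · intro hx
      have := (h.exact x).2 hx
      simp [this]

theorem SES.equiv_comp {ι : K →ₗ[R] F} {π : F →ₗ[R] M} (h : SES ι π)
    {K' : Type} [AddCommGroup K'] [Module R K'] (e : K' ≃ₗ[R] K) :
    SES (ι ∘ₗ e.toLinearMap) π where
  inj := h.inj.comp e.injective
  surj := h.surj
  exact := by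
    intro x
    constructor
    · intro hx
      obtain ⟨y, hy⟩ := (h.exact x).1 hx
      exact ⟨e.symm y, by simp [hy]⟩
    · rintro ⟨y, hy⟩
      rw [← hy]
      exact h.comp_eq_zero _

/-- `0 → 0 → F → F → 0`. -/
theorem SES.zero_id : SES (0 : PUnit →ₗ[R] F) (LinearMap.id : F →ₗ[R] F) where
  inj := fun _ _ _ => rfl
  surj := Function.surjective_id
  exact := by
    intro x
    constructor
    · intro hx
      exact ⟨PUnit.unit, by simpa using hx.symm⟩
    · rintro ⟨y, rfl⟩
      simp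

end SES

section EZ

variable {R : Type} [CommRing R] {N : Type} [AddCommGroup N] [Module R N]

/-- `Ext¹(M,N) → Ext¹(M,N/S)` is zero. -/
def EZ (S : Submodule R N) (M : Type) [AddCommGroup M] [Module R M] : Prop :=
  ∀ (F : Type) [AddCommGroup F] [Module R F] [Module.Projective R F] (π : F →ₗ[R] M),
    Function.Surjective π → ∀ φ : LinearMap.ker π →ₗ[R] N,
      ∃ b : F →ₗ[R] N, ∀ x : LinearMap.ker π, φ x - b x ∈ S

variable {S : Submodule R N} {M : Type} [AddCommGroup M] [Module R M]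

theorem EZ.mono {S' : Submodule R N} (h : EZ S M) (hS : S ≤ S') : EZ S' M := by
  intro F _ _ _ π hπ φ
  obtain ⟨b, hb⟩ := h F π hπ φ
  exact ⟨b, fun x => hS (hb x)⟩

theorem EZ.exact (h : EZ S M) {K F : Type} [AddCommGroup K] [Module R K] [AddCommGroup F]
    [Module R F] [Module.Projective R F] {ι : K →ₗ[R] F} {π : F →ₗ[R] M} (hs : SES ι π)
    (φ : K →ₗ[R] N) : ∃ b : F →ₗ[R] N, ∀ x, φ x - b (ι x) ∈ S := by
  obtain ⟨g, hg⟩ := hs.lift (LinearMap.ker π).subtype (fun a => a.2)
  obtain ⟨b, hb⟩ := h F π hs.surj (φ ∘ₗ g)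
  refine ⟨b, fun x => ?_⟩
  have h1 := hb ⟨ι x, hs.comp_eq_zero x⟩
  have h2 : g ⟨ι x, hs.comp_eq_zero x⟩ = x := by
    apply hs.inj
    rw [hg]
    rfl
  rw [LinearMap.comp_apply, h2] at h1
  exact h1

theorem EZ.of_exact {K F : Type} [AddCommGroup K] [Module R K] [AddCommGroup F]
    [Module R F] [Module.Projective R F] {ι : K →ₗ[R] F} {π : F →ₗ[R] M} (hs : SES ι π)
    (H : ∀ φ : K →ₗ[R] N, ∃ b : F →ₗ[R] N, ∀ x, φ x - b (ι x) ∈ S) : EZ S M := by
  intro F₀ _ _ _ π₀ hπ₀ φ
  obtain ⟨u, hu⟩ := Module.projective_lifting_property π π₀ hs.surj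
  obtain ⟨w, hw⟩ := Module.projective_lifting_property π₀ π hπ₀
  have hu' : ∀ x, π (u x) = π₀ x := fun x => by simpa using LinearMap.congr_fun hu x
  have hw' : ∀ x, π₀ (w x) = π x := fun x => by simpa using LinearMap.congr_fun hw x
  have hs₀ := SES.of_surj π₀ hπ₀
  obtain ⟨w0, hw0⟩ := hs₀.lift (w ∘ₗ ι) (fun a => by
    rw [LinearMap.comp_apply, hw', hs.comp_eq_zero])
  obtain ⟨v, hv⟩ := hs₀.lift (w ∘ₗ u - LinearMap.id) (fun a => by
    rw [LinearMap.sub_apply, LinearMap.comp_apply, LinearMap.id_apply, map_sub, hw', hu', sub_self])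
  obtain ⟨b, hb⟩ := H (φ ∘ₗ w0)
  refine ⟨b ∘ₗ u - φ ∘ₗ v, fun x => ?_⟩
  obtain ⟨k, hk⟩ := hs.exists_of_eq_zero (x := u x) (by rw [hu']; exact x.2)
  have h1 := hb k
  have h2 : w0 k - v x = x := by
    apply hs₀.inj
    rw [map_sub, hw0, hv, LinearMap.comp_apply, hk]
    simp
  have h3 : φ x = φ (w0 k) - φ (v x) := by rw [← map_sub, h2]
  rw [h3, LinearMap.sub_apply, LinearMap.comp_apply, LinearMap.comp_apply, ← hk]
  rw [LinearMap.comp_apply] at h1
  have : φ (w0 k) - φ (v ↑x) - (b (ι k) - φ (v ↑x)) = φ (w0 k) - b (ι k) := by abel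
  rw [this]
  exact h1

theorem exists_proj_cover (M : Type) [AddCommGroup M] [Module R M] :
    ∃ (F : Type) (_ : AddCommGroup F) (_ : Module R F) (_ : Module.Projective R F)
      (π : F →ₗ[R] M), Function.Surjective π :=
  ⟨M →₀ R, inferInstance, inferInstance, inferInstance, Finsupp.linearCombination R (id : M → M),
    Finsupp.linearCombination_id_surjective R M⟩

theorem EZ.equiv {M' : Type} [AddCommGroup M'] [Module R M'] (h : EZ S M) (e : M ≃ₗ[R] M') :
    EZ S M' := by
  obtain ⟨F, _, _, _, π, hπ⟩ := exists_proj_cover (R := R) M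
  have hs := SES.of_surj π hπ
  exact EZ.of_exact (hs.comp_equiv e) (fun φ => h.exact hs φ)

theorem EZ.prod {M' : Type} [AddCommGroup M'] [Module R M'] (h : EZ S M) (h' : EZ S M') :
    EZ S (M × M') := by
  obtain ⟨F, _, _, _, π, hπ⟩ := exists_proj_cover (R := R) M
  obtain ⟨F', _, _, _, π', hπ'⟩ := exists_proj_cover (R := R) M'
  have hs := SES.of_surj π hπ
  have hs' := SES.of_surj π' hπ'
  refine EZ.of_exact (hs.prod hs') (fun φ => ?_)
  obtain ⟨b, hb⟩ := h.exact hs (φ ∘ₗ LinearMap.inl R _ _)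
  obtain ⟨b', hb'⟩ := h'.exact hs' (φ ∘ₗ LinearMap.inr R _ _)
  refine ⟨b.coprod b', fun x => ?_⟩
  have h1 := S.add_mem (hb x.1) (hb' x.2)
  have h2 : φ x = φ (LinearMap.inl R _ _ x.1) + φ (LinearMap.inr R _ _ x.2) := by
    rw [← map_add]
    congr 1
    simp
  rw [h2]
  convert h1 using 1
  simp only [LinearMap.comp_apply, LinearMap.coprod_apply, LinearMap.prodMap_apply]
  abel

/-- a retract of a module with `EZ` has `EZ`. -/
theorem EZ.of_retract {M' : Type} [AddCommGroup M'] [Module R M'] (h : EZ S M')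
    (i : M →ₗ[R] M') (r : M' →ₗ[R] M) (hir : ∀ x, r (i x) = x) : EZ S M := by
  obtain ⟨F, _, _, _, π, hπ⟩ := exists_proj_cover (R := R) M
  obtain ⟨F', _, _, _, π', hπ'⟩ := exists_proj_cover (R := R) M'
  have hs := SES.of_surj π hπ
  have hs' := SES.of_surj π' hπ'
  refine EZ.of_exact hs (fun φ => ?_)
  -- lift `i` and `r`
  obtain ⟨I, hI⟩ := Module.projective_lifting_property π' (i ∘ₗ π) hπ'
  obtain ⟨T, hT⟩ := Module.projective_lifting_property π (r ∘ₗ π') hπ
  have hI' : ∀ x, π' (I x) = i (π x) := fun x => by simpa using LinearMap.congr_fun hI x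
  have hT' : ∀ x, π (T x) = r (π' x) := fun x => by simpa using LinearMap.congr_fun hT x
  obtain ⟨t0, ht0⟩ := hs.lift (T ∘ₗ (LinearMap.ker π').subtype) (fun a => by
    rw [LinearMap.comp_apply, hT', Submodule.subtype_apply]
    have := a.2
    rw [LinearMap.mem_ker] at this
    rw [this, map_zero])
  obtain ⟨v, hv⟩ := hs.lift (T ∘ₗ I - LinearMap.id) (fun a => by
    rw [LinearMap.sub_apply, LinearMap.comp_apply, LinearMap.id_apply, map_sub, hT', hI', hir,
      sub_self])
  obtain ⟨b, hb⟩ := h.exact hs' (φ ∘ₗ t0)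
  refine ⟨b ∘ₗ I - φ ∘ₗ v, fun x => ?_⟩
  have hx : π' (I x) = 0 := by
    rw [hI']
    have := x.2
    rw [LinearMap.mem_ker] at this
    rw [this, map_zero]
  have h1 := hb ⟨I x, hx⟩
  have h2 : t0 ⟨I x, hx⟩ - v x = x := by
    apply hs.inj
    rw [map_sub, ht0, hv]
    simp
  have h3 : φ x = φ (t0 ⟨I x, hx⟩) - φ (v x) := by rw [← map_sub, h2]
  rw [h3, LinearMap.sub_apply, LinearMap.comp_apply, LinearMap.comp_apply]
  rw [LinearMap.comp_apply] at h1
  have : φ (t0 ⟨I x, hx⟩) - φ (v ↑x) - (b (I ((LinearMap.ker π).subtype x)) -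
      φ (v ((LinearMap.ker π).subtype x))) = φ (t0 ⟨I x, hx⟩) - b (I x) := by
    simp only [Submodule.subtype_apply]
    abel
  rw [this]
  exact h1

theorem EZ.fst {M' : Type} [AddCommGroup M'] [Module R M'] (h : EZ S (M × M')) : EZ S M :=
  h.of_retract (LinearMap.inl R M M') (LinearMap.fst R M M') (fun _ => rfl)

theorem EZ.snd {M' : Type} [AddCommGroup M'] [Module R M'] (h : EZ S (M × M')) : EZ S M' :=
  h.of_retract (LinearMap.inr R M M') (LinearMap.snd R M M') (fun _ => rfl)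

theorem EZ.proj (S : Submodule R N) (F : Type) [AddCommGroup F] [Module R F]
    [Module.Projective R F] : EZ S F :=
  EZ.of_exact (SES.zero_id (F := F)) (fun φ => ⟨0, fun x => by
    have : φ x = 0 := by
      have : x = 0 := rfl
      rw [this, map_zero]
    simp [this]⟩)

/-- change of coefficients along an isomorphism. -/
theorem EZ.coeff {N' : Type} [AddCommGroup N'] [Module R N'] (h : EZ S M) (e : N ≃ₗ[R] N')
    {S' : Submodule R N'} (hS : ∀ x ∈ S, e x ∈ S') : EZ S' M := by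
  intro F _ _ _ π hπ φ
  obtain ⟨b, hb⟩ := h F π hπ (e.symm.toLinearMap ∘ₗ φ)
  refine ⟨e.toLinearMap ∘ₗ b, fun x => ?_⟩
  have := hS _ (hb x)
  simpa using this

end EZ

end EA7
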