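import Pool.Agent.Lib.MP_ea7a64_al_h50.RedSy

/-!
# Change of rings: `Ext` over `R` with coefficients in `R/x` versus `Ext` over `R/x`
-/

set_option autoImplicit false
set_option linter.unusedSectionVars false

open IsLocalRing

namespace EA7

section

variable {R : Type} [CommRing R] [IsNoetherianRing R] [IsLocalRing R]

/-- the maximal ideal as a bundled module -/
noncomputable def mm (R : Type) [CommRing R] [IsNoetherianRing R] [IsLocalRing R] : FM R :=
  ⟨maximalIdeal R⟩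

/-- `R → k` as a linear map -/
noncomputable def resL (R : Type) [CommRing R] [IsNoetherianRing R] [IsLocalRing R] :
    R →ₗ[R] (kk R).C := (Algebra.linearMap R (ResidueField R) : R →ₗ[R] ResidueField R)

theorem ses_mk : SES ((maximalIdeal R).subtype : maximalIdeal R →ₗ[R] R) (resL R) := by
  refine ⟨Subtype.val_injective, residue_surjective, ?_⟩
  intro y
  constructor
  · intro hy
    exact ⟨⟨y, (residue_eq_zero_iff y).1 hy⟩, rfl⟩
  · rintro ⟨z, rfl⟩
    exact (residue_eq_zero_iff _).2 z.2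

theorem stab_om_kk : StabEq R (Om (kk R)).C (mm R).C := stabEq_om_of_ses (kk R) ses_mk

theorem stab_sy_kk (i : ℕ) : StabEq R (Sy (kk R) (i + 1)).C (Sy (mm R) i).C := by
  rw [Sy_succ']
  exact StabEq.sy stab_om_kk i

/-- a functional on `m/m²`. -/
theorem exists_functional (x : R) (hx : x ∈ maximalIdeal R) (hx2 : x ∉ maximalIdeal R ^ 2) :
    ∃ v : maximalIdeal R →ₗ[R] ResidueField R, v ⟨x, hx⟩ = 1 := by
  set c0 : CotangentSpace R := (maximalIdeal R).toCotangent ⟨x, hx⟩ with hc0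
  have hc0ne : c0 ≠ 0 := by
    intro h
    exact hx2 ((Ideal.toCotangent_eq_zero _ _).1 h)
  obtain ⟨v0, hv0⟩ : ∃ v : Module.Dual (ResidueField R) (CotangentSpace R), v c0 ≠ 0 := by
    by_contra hcon
    push Not at hcon
    exact hc0ne ((Module.forall_dual_apply_eq_zero_iff (ResidueField R) c0).1 hcon)
  let v : Module.Dual (ResidueField R) (CotangentSpace R) := (v0 c0)⁻¹ • v0
  have hv : v c0 = 1 := by simp [v, hv0]
  exact ⟨(v.restrictScalars R) ∘ₗ (maximalIdeal R).toCotangent, hv⟩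

variable (x : R)

theorem smul_quot (r : R) (z : (R ⧸ Ideal.span {x})) : r • z = Ideal.Quotient.mk (Ideal.span {x}) r * z := by
  rw [Algebra.smul_def]; rfl

variable {x}

theorem mem_max_iff (hx : x ∈ maximalIdeal R) [IsLocalRing (R ⧸ Ideal.span {x})] (y : R) :
    Ideal.Quotient.mk (Ideal.span {x}) y ∈ maximalIdeal (R ⧸ Ideal.span {x}) ↔ y ∈ maximalIdeal R := by
  have : IsLocalHom (Ideal.Quotient.mk (Ideal.span {x})) := IsLocalHom.of_surjective _ Ideal.Quotient.mk_surjective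
  rw [mem_maximalIdeal, mem_maximalIdeal, mem_nonunits_iff, mem_nonunits_iff]
  exact not_congr (isUnit_map_iff (Ideal.Quotient.mk (Ideal.span {x})) y)

/-- the semilinear map `m → k'` -/
theorem exists_u (hx : x ∈ maximalIdeal R) (hx2 : x ∉ maximalIdeal R ^ 2) [IsLocalRing (R ⧸ Ideal.span {x})] :
    ∃ u : maximalIdeal R →ₛₗ[Ideal.Quotient.mk (Ideal.span {x})] ResidueField (R ⧸ Ideal.span {x}), u ⟨x, hx⟩ = 1 := by
  obtain ⟨v, hv⟩ := exists_functional x hx hx2
  have : IsLocalHom (Ideal.Quotient.mk (Ideal.span {x})) := IsLocalHom.of_surjective _ Ideal.Quotient.mk_surjective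
  refine ⟨{ toFun := fun y => ResidueField.map (Ideal.Quotient.mk (Ideal.span {x})) (v y), map_add' := ?_, map_smul' := ?_ }, ?_⟩
  · intro a b
    rw [map_add, map_add]
  · intro r a
    rw [map_smul, Algebra.smul_def, map_mul, Algebra.smul_def]
    rfl
  · change ResidueField.map (Ideal.Quotient.mk (Ideal.span {x})) (v ⟨x, hx⟩) = 1
    rw [hv, map_one]

/-- the reduction `m → m' × k'` -/
theorem exists_rho0 (hx : x ∈ maximalIdeal R) (hx2 : x ∉ maximalIdeal R ^ 2)
    [IsLocalRing (R ⧸ Ideal.span {x})] :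
    ∃ ρ : maximalIdeal R →ₛₗ[Ideal.Quotient.mk (Ideal.span {x})] (maximalIdeal (R ⧸ Ideal.span {x}) × ResidueField (R ⧸ Ideal.span {x})), Red x ρ := by
  obtain ⟨u, hu⟩ := exists_u hx hx2
  let ρ : maximalIdeal R →ₛₗ[Ideal.Quotient.mk (Ideal.span {x})] (maximalIdeal (R ⧸ Ideal.span {x}) × ResidueField (R ⧸ Ideal.span {x})) :=
    { toFun := fun y => (⟨Ideal.Quotient.mk (Ideal.span {x}) y.1, (mem_max_iff hx y.1).2 y.2⟩, u y)
      map_add' := fun a b => by
        refine Prod.ext (Subtype.ext ?_) ?_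
        · change Ideal.Quotient.mk (Ideal.span {x}) (a.1 + b.1) = Ideal.Quotient.mk (Ideal.span {x}) a.1 + Ideal.Quotient.mk (Ideal.span {x}) b.1
          rw [map_add]
        · exact map_add u a b
      map_smul' := fun r a => by
        refine Prod.ext (Subtype.ext ?_) ?_
        · change Ideal.Quotient.mk (Ideal.span {x}) (r * a.1) = Ideal.Quotient.mk (Ideal.span {x}) r * Ideal.Quotient.mk (Ideal.span {x}) a.1
          rw [map_mul]
        · exact u.map_smulₛₗ r a }
  have hρ : ∀ y, ρ y = (⟨Ideal.Quotient.mk (Ideal.span {x}) y.1, (mem_max_iff hx y.1).2 y.2⟩, u y) := fun _ => rfl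
  have hux : ∀ (r : R) (h : r * x ∈ maximalIdeal R), u ⟨r * x, h⟩ = residue (R ⧸ Ideal.span {x}) (Ideal.Quotient.mk (Ideal.span {x}) r) := by
    intro r h
    have h1 : (⟨r * x, h⟩ : maximalIdeal R) = r • ⟨x, hx⟩ := rfl
    rw [h1, u.map_smulₛₗ, hu, Algebra.smul_def, mul_one]
    rfl
  refine ⟨ρ, ?_, ?_⟩
  · rintro ⟨⟨y', hy'⟩, c⟩
    obtain ⟨y, rfl⟩ := Ideal.Quotient.mk_surjective y'
    have hy : y ∈ maximalIdeal R := (mem_max_iff hx y).1 hy'
    obtain ⟨r', hr'⟩ := residue_surjective (R := (R ⧸ Ideal.span {x})) (c - u ⟨y, hy⟩)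
    obtain ⟨r, rfl⟩ := Ideal.Quotient.mk_surjective r'
    have hrx : r * x ∈ maximalIdeal R := Ideal.mul_mem_left _ _ hx
    refine ⟨⟨y, hy⟩ + ⟨r * x, hrx⟩, ?_⟩
    rw [hρ, map_add, hux r hrx, hr']
    refine Prod.ext (Subtype.ext ?_) ?_
    · change Ideal.Quotient.mk (Ideal.span {x}) (y + r * x) = Ideal.Quotient.mk (Ideal.span {x}) y
      rw [map_add, map_mul]
      have : Ideal.Quotient.mk (Ideal.span {x}) x = 0 := Ideal.Quotient.eq_zero_iff_mem.2 (Ideal.mem_span_singleton_self x)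
      rw [this, mul_zero, add_zero]
    · simp
  · rintro ⟨y, hy⟩
    constructor
    · intro h
      have h1 : (⟨Ideal.Quotient.mk (Ideal.span {x}) y, (mem_max_iff hx y).2 hy⟩ : maximalIdeal (R ⧸ Ideal.span {x})) = 0 :=
        congrArg Prod.fst h
      have h2 : u ⟨y, hy⟩ = 0 := congrArg Prod.snd h
      have h3 : Ideal.Quotient.mk (Ideal.span {x}) y = 0 := congrArg Subtype.val h1
      obtain ⟨r, rfl⟩ := Ideal.mem_span_singleton'.1 (Ideal.Quotient.eq_zero_iff_mem.1 h3)
      rw [hux] at h2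
      have h4 : r ∈ maximalIdeal R := (mem_max_iff hx r).1 ((residue_eq_zero_iff _).1 h2)
      refine ⟨(⟨r, h4⟩ : maximalIdeal R), Subtype.ext ?_⟩
      change r * x = x * r
      ring
    · rintro ⟨m', hm'⟩
      rw [hm']
      have h0 : Ideal.Quotient.mk (Ideal.span {x}) x = 0 := Ideal.Quotient.eq_zero_iff_mem.2 (Ideal.mem_span_singleton_self x)
      have := ρ.map_smulₛₗ x m'
      rw [h0, zero_smul] at this
      exact this

theorem exists_rho (hx : x ∈ maximalIdeal R) (hx2 : x ∉ maximalIdeal R ^ 2)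
    [IsLocalRing (R ⧸ Ideal.span {x})] :
    ∃ ρ : (mm R).C →ₛₗ[Ideal.Quotient.mk (Ideal.span {x})] ((mm (R ⧸ Ideal.span {x})).prod (kk (R ⧸ Ideal.span {x}))).C, Red x ρ :=
  exists_rho0 hx hx2

theorem EZ_prod_iff {N : Type} [AddCommGroup N] [Module R N] {S : Submodule R N}
    {A B : Type} [AddCommGroup A] [Module R A] [AddCommGroup B] [Module R B] :
    EZ S (A × B) ↔ EZ S A ∧ EZ S B :=
  ⟨fun h => ⟨h.fst, h.snd⟩, fun h => h.1.prod h.2⟩

theorem StabEq.EZ_iff {N : Type} [AddCommGroup N] [Module R N] {S : Submodule R N}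
    {A B : Type} [AddCommGroup A] [Module R A] [AddCommGroup B] [Module R B]
    (h : StabEq R A B) : EA7.EZ S A ↔ EA7.EZ S B :=
  ⟨fun hA => h.EZ hA, fun hB => h.symm.EZ hB⟩

variable (x)

theorem split_zero (hx : x ∈ maximalIdeal R) [IsLocalRing (R ⧸ Ideal.span {x})]
    (S : Ideal (R ⧸ Ideal.span {x})) :
    V (S.restrictScalars R : Submodule R (R ⧸ Ideal.span {x})) 0 ↔
      V (S : Submodule (R ⧸ Ideal.span {x}) (R ⧸ Ideal.span {x})) 0 := by
  constructor
  · intro h n hn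
    exact h n (fun y hy => by
      rw [smul_quot]
      exact hn _ ((mem_max_iff hx y).2 hy))
  · intro h n hn
    exact h n (fun y' hy' => by
      obtain ⟨y, rfl⟩ := Ideal.Quotient.mk_surjective y'
      rw [smul_eq_mul, ← smul_quot]
      exact hn y ((mem_max_iff hx y).1 hy'))

theorem split_one (hx : x ∈ maximalIdeal R) (hx2 : x ∉ maximalIdeal R ^ 2)
    [IsLocalRing (R ⧸ Ideal.span {x})] (S : Ideal (R ⧸ Ideal.span {x})) :
    V (S.restrictScalars R : Submodule R (R ⧸ Ideal.span {x})) 1 ↔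
      (V (S : Submodule (R ⧸ Ideal.span {x}) (R ⧸ Ideal.span {x})) 1 ∧
       V (S : Submodule (R ⧸ Ideal.span {x}) (R ⧸ Ideal.span {x})) 0) := by
  obtain ⟨u, hu⟩ := exists_u hx hx2
  have h0 : Ideal.Quotient.mk (Ideal.span {x}) x = 0 := Ideal.Quotient.eq_zero_iff_mem.2 (Ideal.mem_span_singleton_self x)
  -- `k' → R/x`, `1 ↦ n`
  have he : ∀ n : (R ⧸ Ideal.span {x}), (∀ y ∈ maximalIdeal (R ⧸ Ideal.span {x}), y • n = 0) →
      ∃ e : ResidueField (R ⧸ Ideal.span {x}) →ₗ[(R ⧸ Ideal.span {x})] (R ⧸ Ideal.span {x}), ∀ r, e (residue (R ⧸ Ideal.span {x}) r) = r * n := by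
    intro n hn
    obtain ⟨e, he⟩ := (ses_mk (R := (R ⧸ Ideal.span {x}))).desc (LinearMap.toSpanSingleton (R ⧸ Ideal.span {x}) (R ⧸ Ideal.span {x}) n) (fun k => by
      rw [LinearMap.toSpanSingleton_apply]
      exact hn _ k.2)
    exact ⟨e, fun r => he r⟩
  -- the `R`-linear map `m → R/x` induced by `e`
  have hψ : ∀ e : ResidueField (R ⧸ Ideal.span {x}) →ₗ[(R ⧸ Ideal.span {x})] (R ⧸ Ideal.span {x}),
      ∃ ψ : maximalIdeal R →ₗ[R] (R ⧸ Ideal.span {x}), ∀ y, ψ y = e (u y) := by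
    intro e
    refine ⟨{ toFun := fun y => e (u y), map_add' := ?_, map_smul' := ?_ }, fun _ => rfl⟩
    · intro a b; rw [map_add, map_add]
    · intro r a; rw [u.map_smulₛₗ, map_smul, RingHom.id_apply, smul_quot, smul_eq_mul]
  constructor
  · intro h
    have hex : ∀ φ : maximalIdeal R →ₗ[R] (R ⧸ Ideal.span {x}), ∃ c : (R ⧸ Ideal.span {x}), ∀ y, φ y - Ideal.Quotient.mk (Ideal.span {x}) y.1 * c ∈ S := by
      intro φ
      obtain ⟨b, hb⟩ := EZ.exact (M := (kk R).C) h ses_mk φ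
      refine ⟨b 1, fun y => ?_⟩
      have h2 := hb y
      have h3 : b y.1 = Ideal.Quotient.mk (Ideal.span {x}) y.1 * b 1 := by
        have : b y.1 = b (y.1 • (1 : R)) := by simp
        rw [this, map_smul, smul_quot]
      rw [Submodule.subtype_apply, h3] at h2
      exact h2
    constructor
    · change EZ (S : Submodule (R ⧸ Ideal.span {x}) (R ⧸ Ideal.span {x})) (kk (R ⧸ Ideal.span {x})).C
      refine EZ.of_exact (ses_mk (R := (R ⧸ Ideal.span {x}))) (fun φ' => ?_)
      obtain ⟨c, hc⟩ := hex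
        { toFun := fun y => φ' ⟨Ideal.Quotient.mk (Ideal.span {x}) y.1, (mem_max_iff hx y.1).2 y.2⟩
          map_add' := fun a b => by
            rw [← map_add]
            rfl
          map_smul' := fun r a => by
            rw [RingHom.id_apply, smul_quot, ← smul_eq_mul, ← map_smul]
            rfl }
      refine ⟨LinearMap.toSpanSingleton (R ⧸ Ideal.span {x}) (R ⧸ Ideal.span {x}) c, ?_⟩
      rintro ⟨y', hy'⟩
      obtain ⟨y, rfl⟩ := Ideal.Quotient.mk_surjective y'
      exact hc ⟨y, (mem_max_iff hx y).1 hy'⟩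
    · intro n hn
      obtain ⟨e, he⟩ := he n hn
      obtain ⟨ψ, hψ⟩ := hψ e
      obtain ⟨c, hc⟩ := hex ψ
      have h2 := hc ⟨x, hx⟩
      rw [hψ, hu, ← map_one (residue (R ⧸ Ideal.span {x})), he, one_mul, h0, zero_mul, sub_zero] at h2
      exact h2
  · rintro ⟨h1, h2⟩
    change EZ (S.restrictScalars R : Submodule R (R ⧸ Ideal.span {x})) (kk R).C
    refine EZ.of_exact ses_mk (fun φ => ?_)
    set n : (R ⧸ Ideal.span {x}) := φ ⟨x, hx⟩ with hn
    have hn0 : ∀ y ∈ maximalIdeal (R ⧸ Ideal.span {x}), y • n = 0 := by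
      intro y' hy'
      obtain ⟨y, rfl⟩ := Ideal.Quotient.mk_surjective y'
      rw [smul_eq_mul, ← smul_quot, hn, ← map_smul]
      have hy := (mem_max_iff hx y).1 hy'
      have h3 : y • (⟨x, hx⟩ : maximalIdeal R) = x • ⟨y, hy⟩ := Subtype.ext (mul_comm y x)
      rw [h3, map_smul, smul_quot, h0, zero_mul]
    have hnS : n ∈ S := h2 n hn0
    obtain ⟨e, he⟩ := he n hn0
    obtain ⟨ψ, hψ⟩ := hψ e
    have hψS : ∀ y, ψ y ∈ S := by
      intro y
      rw [hψ]
      obtain ⟨r, hr⟩ := residue_surjective (R := (R ⧸ Ideal.span {x})) (u y)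
      rw [← hr, he]
      exact Ideal.mul_mem_left _ _ hnS
    -- `φ - ψ` factors through `m'`
    have hker : ∀ y : maximalIdeal R, Ideal.Quotient.mk (Ideal.span {x}) y.1 = 0 → φ y = ψ y := by
      rintro ⟨y, hy⟩ h3
      obtain ⟨r, rfl⟩ := Ideal.mem_span_singleton'.1 (Ideal.Quotient.eq_zero_iff_mem.1 h3)
      have h4 : (⟨r * x, hy⟩ : maximalIdeal R) = r • ⟨x, hx⟩ := rfl
      rw [h4, map_smul, map_smul, hψ, hu, ← map_one (residue (R ⧸ Ideal.span {x})), he, one_mul]
    have hsur : ∀ y' : maximalIdeal (R ⧸ Ideal.span {x}), ∃ y : maximalIdeal R, Ideal.Quotient.mk (Ideal.span {x}) y.1 = y'.1 := by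
      rintro ⟨y', hy'⟩
      obtain ⟨y, rfl⟩ := Ideal.Quotient.mk_surjective y'
      exact ⟨⟨y, (mem_max_iff hx y).1 hy'⟩, rfl⟩
    choose s hs using hsur
    have key : ∀ a b : maximalIdeal R, Ideal.Quotient.mk (Ideal.span {x}) a.1 = Ideal.Quotient.mk (Ideal.span {x}) b.1 → φ a - ψ a = φ b - ψ b := by
      intro a b hab
      have h3 := hker (a - b) (by
        change Ideal.Quotient.mk (Ideal.span {x}) (a.1 - b.1) = 0
        rw [map_sub, hab, sub_self])
      rw [map_sub, map_sub] at h3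
      linear_combination h3
    let φ' : maximalIdeal (R ⧸ Ideal.span {x}) →ₗ[(R ⧸ Ideal.span {x})] (R ⧸ Ideal.span {x}) :=
      { toFun := fun y' => φ (s y') - ψ (s y')
        map_add' := fun a b => by
          have h3 := key (s (a + b)) (s a + s b) (by
            rw [hs]
            change a.1 + b.1 = Ideal.Quotient.mk (Ideal.span {x}) ((s a).1 + (s b).1)
            rw [map_add, hs, hs])
          rw [h3, map_add, map_add]
          ring
        map_smul' := fun r' a => by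
          obtain ⟨r, rfl⟩ := Ideal.Quotient.mk_surjective r'
          have h3 := key (s (Ideal.Quotient.mk (Ideal.span {x}) r • a)) (r • s a) (by
            rw [hs]
            change Ideal.Quotient.mk (Ideal.span {x}) r * a.1 = Ideal.Quotient.mk (Ideal.span {x}) (r * (s a).1)
            rw [map_mul, hs])
          rw [h3, map_smul, map_smul, RingHom.id_apply, ← smul_sub, smul_quot]
          rfl }
    have hφ' : ∀ y : maximalIdeal R, φ' ⟨Ideal.Quotient.mk (Ideal.span {x}) y.1, (mem_max_iff hx y.1).2 y.2⟩ = φ y - ψ y := by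
      intro y
      exact key _ _ (hs _)
    obtain ⟨b', hb'⟩ := EZ.exact (M := (kk (R ⧸ Ideal.span {x})).C) h1 (ses_mk (R := (R ⧸ Ideal.span {x}))) φ'
    refine ⟨{ toFun := fun r => b' (Ideal.Quotient.mk (Ideal.span {x}) r), map_add' := ?_, map_smul' := ?_ }, fun y => ?_⟩
    · intro a b; rw [map_add, map_add]
    · intro r a
      rw [smul_eq_mul, map_mul, ← smul_eq_mul (Ideal.Quotient.mk (Ideal.span {x}) r), map_smul, RingHom.id_apply, smul_quot,
        smul_eq_mul]
    · have h3 := hb' ⟨Ideal.Quotient.mk (Ideal.span {x}) y.1, (mem_max_iff hx y.1).2 y.2⟩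
      rw [hφ'] at h3
      have h4 := S.add_mem h3 (hψS y)
      have h5 : φ y - ψ y - b' (Ideal.Quotient.mk (Ideal.span {x}) y.1) + ψ y = φ y - b' (Ideal.Quotient.mk (Ideal.span {x}) y.1) := by ring
      rw [Submodule.subtype_apply] at h4
      rw [h5] at h4
      exact h4

theorem split
    (hx : x ∈ maximalIdeal R) (hx2 : x ∉ maximalIdeal R ^ 2) (hreg : x ∈ nonZeroDivisors R)
    [IsLocalRing (R ⧸ Ideal.span {x})] (S : Ideal (R ⧸ Ideal.span {x})) (i : ℕ) :
    V (S.restrictScalars R : Submodule R (R ⧸ Ideal.span {x})) (i + 1) ↔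
      (V (S : Submodule (R ⧸ Ideal.span {x}) (R ⧸ Ideal.span {x})) (i + 1) ∧
       V (S : Submodule (R ⧸ Ideal.span {x}) (R ⧸ Ideal.span {x})) i) := by
  cases i with
  | zero => exact split_one x hx hx2 S
  | succ j =>
    obtain ⟨ρ, hρ⟩ := exists_rho hx hx2
    have hxm : ∀ y : (mm R).C, x • y = 0 → y = 0 := by
      intro y hy
      have h1 : x * y.1 = 0 := congrArg Subtype.val hy
      exact Subtype.ext ((mem_nonZeroDivisors_iff.1 hreg).1 _ h1)
    obtain ⟨Z, ρ', hρ', hZ, hreg'⟩ := red_sy x hreg (mm R) ((mm (R ⧸ Ideal.span {x})).prod (kk (R ⧸ Ideal.span {x}))) hxm ρ hρ j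
    change EZ (S.restrictScalars R : Submodule R (R ⧸ Ideal.span {x})) (Sy (kk R) (j + 1)).C ↔
      (EZ (S : Submodule (R ⧸ Ideal.span {x}) (R ⧸ Ideal.span {x})) (Sy (kk (R ⧸ Ideal.span {x})) (j + 1)).C ∧
        EZ (S : Submodule (R ⧸ Ideal.span {x}) (R ⧸ Ideal.span {x})) (Sy (kk (R ⧸ Ideal.span {x})) j).C)
    rw [(stab_sy_kk j).EZ_iff, EZ_red x S (Sy (mm R) j) Z.C hreg' ρ' hρ', hZ.EZ_iff,
      (stabEq_sy_prod (mm (R ⧸ Ideal.span {x})) (kk (R ⧸ Ideal.span {x})) j).EZ_iff, EZ_prod_iff, (stab_sy_kk (R := (R ⧸ Ideal.span {x})) j).EZ_iff]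

end

end EA7
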