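import Pool.Agent.Lib.MP_ea7a64_al_h50.Tees
import Pool.Agent.Lib.MP_ea7a64_al_h50.Split
import Pool.Agent.Lib.MP_ea7a64_al_h64.Shift

/-!
# (K2): `Ext^d(k,R) → Ext^d(k,R/m²)` is zero
-/

set_option autoImplicit false
set_option linter.unusedSectionVars false

open IsLocalRing

namespace EA7

section

variable {R : Type} [CommRing R] [IsNoetherianRing R] [IsLocalRing R]

/-- prime avoidance -/
theorem exists_regular (J : Ideal R) (hJ : ¬ maximalIdeal R ≤ J)
    (h0 : V (⊥ : Submodule R R) 0) :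
    ∃ x ∈ maximalIdeal R, x ∉ J ∧ x ∈ nonZeroDivisors R := by
  by_contra hcon
  push Not at hcon
  have hfin : (insert J (associatedPrimes R R)).Finite := (associatedPrimes.finite R R).insert J
  have hsub : (maximalIdeal R : Set R) ⊆ ⋃ p ∈ insert J (associatedPrimes R R), (id p : Ideal R) := by
    intro x hx
    by_cases hxJ : x ∈ J
    · exact Set.mem_biUnion (Set.mem_insert _ _) hxJ
    · have h1 := hcon x hx hxJ
      have h2 : x ∈ ⋃ p ∈ associatedPrimes R R, (p : Set R) := by
        rw [biUnion_associatedPrimes_eq_compl_nonZeroDivisors]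
        exact h1
      obtain ⟨p, hp, hxp⟩ := Set.mem_iUnion₂.1 h2
      exact Set.mem_biUnion (Set.mem_insert_of_mem _ hp) hxp
  obtain ⟨p, hp, hle⟩ := (Ideal.subset_union_prime_finite hfin J J (by
    intro i hi hiJ _
    rcases Set.mem_insert_iff.1 hi with h | h
    · exact absurd h hiJ
    · exact IsAssociatedPrime.isPrime h)).1 hsub
  rcases Set.mem_insert_iff.1 hp with h | h
  · subst h
    exact hJ hle
  · rw [AssociatedPrimes.mem_iff, isAssociatedPrime_iff] at h
    obtain ⟨hprime, x, hx⟩ := h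
    have hx0 : x = 0 := by
      have := h0 x (fun y hy => by
        have h3 : y ∈ p := hle hy
        rw [hx] at h3
        simpa [Submodule.mem_colon_singleton] using h3)
      simpa using this
    apply hprime.ne_top
    rw [hx, hx0]
    simp

theorem V.coeff {N N' : Type} [AddCommGroup N] [Module R N] [AddCommGroup N'] [Module R N']
    {S : Submodule R N} {i : ℕ} (h : V S i) (e : N ≃ₗ[R] N') {S' : Submodule R N'}
    (hS : ∀ x ∈ S, e x ∈ S') : V S' i := by
  cases i with
  | zero =>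
    intro n hn
    have := hS _ (h (e.symm n) (fun y hy => by rw [← map_smul, hn y hy, map_zero]))
    simpa using this
  | succ i => exact EZ.coeff h e hS

theorem V.mono {N : Type} [AddCommGroup N] [Module R N]
    {S S' : Submodule R N} {i : ℕ} (h : V S i) (hS : S ≤ S') : V S' i := by
  cases i with
  | zero => exact fun n hn => hS (h n hn)
  | succ i => exact EZ.mono h hS

theorem isLocalRing_quot (x : R) (hx : x ∈ maximalIdeal R) : IsLocalRing (R ⧸ Ideal.span {x}) := by
  have : Nontrivial (R ⧸ Ideal.span {x}) := by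
    apply Ideal.Quotient.nontrivial_iff.2
    intro h
    have h1 : (1 : R) ∈ Ideal.span {x} := by rw [h]; trivial
    have h2 : Ideal.span {x} ≤ maximalIdeal R := by
      rw [Ideal.span_le]; simpa using hx
    exact (Ideal.ne_top_iff_one _).1 (maximalIdeal.isMaximal R).ne_top (h2 h1)
  exact IsLocalRing.of_surjective' (Ideal.Quotient.mk (Ideal.span {x})) Ideal.Quotient.mk_surjective

theorem map_maximalIdeal_quot (x : R) (hx : x ∈ maximalIdeal R)
    [IsLocalRing (R ⧸ Ideal.span {x})] :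
    (maximalIdeal R).map (Ideal.Quotient.mk (Ideal.span {x})) =
      maximalIdeal (R ⧸ Ideal.span {x}) := by
  have h2 : Ideal.span {x} ≤ maximalIdeal R := by
    rw [Ideal.span_le]; simpa using hx
  have h3 : ((maximalIdeal R).map (Ideal.Quotient.mk (Ideal.span {x}))).IsMaximal := by
    apply Ideal.IsMaximal.map_of_surjective_of_ker_le Ideal.Quotient.mk_surjective
    rw [Ideal.mk_ker]
    exact h2
  exact IsLocalRing.eq_maximalIdeal h3

open scoped Pointwise in
theorem quotSMulTop_eq (x : R) : (x • (⊤ : Submodule R R)) = Ideal.span {x} := by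
  ext y
  rw [Submodule.mem_smul_pointwise_iff_exists, Ideal.mem_span_singleton']
  constructor
  · rintro ⟨z, -, rfl⟩
    exact ⟨z, by rw [smul_eq_mul, mul_comm]⟩
  · rintro ⟨z, rfl⟩
    exact ⟨z, trivial, by rw [smul_eq_mul, mul_comm]⟩

theorem restrict_bot (x : R) :
    ((⊥ : Ideal (R ⧸ Ideal.span {x})).restrictScalars R : Submodule R (R ⧸ Ideal.span {x})) = ⊥ :=
  Submodule.restrictScalars_bot R (R ⧸ Ideal.span {x}) (R ⧸ Ideal.span {x})

theorem descent (d' : ℕ) (x : R) (hx : x ∈ maximalIdeal R) (hx2 : x ∉ maximalIdeal R ^ 2)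
    (hreg : x ∈ nonZeroDivisors R) [IsLocalRing (R ⧸ Ideal.span {x})]
    (h1 : ∀ i, i ≠ d' + 1 → V (⊥ : Submodule R R) i) :
    ∀ i, i ≠ d' → V (⊥ : Submodule (R ⧸ Ideal.span {x}) (R ⧸ Ideal.span {x})) i := by
  have hq : ∀ i, i ≠ d' + 1 → i + 1 ≠ d' + 1 →
      V ((⊥ : Ideal (R ⧸ Ideal.span {x})).restrictScalars R :
        Submodule R (R ⧸ Ideal.span {x})) i := by
    intro i hi hi'
    have hreg' : IsSMulRegular R x := by
      intro a b hab
      have : x * (a - b) = 0 := by
        rw [mul_sub, sub_eq_zero]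
        exact hab
      exact sub_eq_zero.1 ((mem_nonZeroDivisors_iff.1 hreg).1 _ this)
    have h2 := V_quot R x hx hreg' i (h1 i hi) (h1 (i + 1) hi')
    refine h2.coeff (Submodule.quotEquivOfEq _ _ (quotSMulTop_eq x)) (fun y hy => ?_)
    rw [Submodule.mem_bot] at hy
    rw [hy, map_zero]
    exact Submodule.zero_mem _
  intro i hi
  rcases lt_or_gt_of_ne hi with h | h
  · cases i with
    | zero => exact (split_zero x hx ⊥).1 (hq 0 (by omega) (by omega))
    | succ i => exact ((split x hx hx2 hreg ⊥ i).1 (hq (i + 1) (by omega) (by omega))).1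
  · exact ((split x hx hx2 hreg ⊥ i).1 (hq (i + 1) (by omega) (by omega))).2

theorem NG.quot {n : ℕ} (h : NG R (n + 1)) (x : R) (hx : x ∈ maximalIdeal R)
    [IsLocalRing (R ⧸ Ideal.span {x})] : NG (R ⧸ Ideal.span {x}) n := by
  intro ys hys hle
  choose zs hzs using fun i => Ideal.Quotient.mk_surjective (I := Ideal.span {x}) (ys i)
  have hzm : ∀ i, zs i ∈ maximalIdeal R := by
    intro i
    have h1 := hys i
    rw [← map_maximalIdeal_quot x hx, ← hzs i,
      Ideal.mem_map_iff_of_surjective _ Ideal.Quotient.mk_surjective] at h1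
    obtain ⟨z, hz, hz'⟩ := h1
    have h2 : zs i - z ∈ Ideal.span {x} := Ideal.Quotient.eq.1 hz'.symm
    have h3 : Ideal.span {x} ≤ maximalIdeal R := by
      rw [Ideal.span_le]; simpa using hx
    have := Ideal.add_mem _ (h3 h2) hz
    simpa using this
  refine h (Fin.cons x zs) ?_ ?_
  · intro i
    refine Fin.cases ?_ ?_ i
    · simpa using hx
    · intro i; simpa using hzm i
  · intro y hy
    have h1 : Ideal.Quotient.mk (Ideal.span {x}) y ∈ Ideal.span (Set.range ys) := by
      apply hle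
      rw [← map_maximalIdeal_quot x hx]
      exact Ideal.mem_map_of_mem _ hy
    obtain ⟨c, hc⟩ := (Ideal.mem_span_range_iff_exists_fun).1 h1
    choose a ha using fun i => Ideal.Quotient.mk_surjective (I := Ideal.span {x}) (c i)
    have h2 : Ideal.Quotient.mk (Ideal.span {x}) y =
        Ideal.Quotient.mk (Ideal.span {x}) (∑ i, a i * zs i) := by
      rw [map_sum, ← hc]
      refine Finset.sum_congr rfl (fun i _ => ?_)
      rw [map_mul, ha, hzs]
    have h3 := Ideal.Quotient.eq.1 h2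
    rw [Fin.range_cons, Ideal.span_insert]
    have h4 : (∑ i, a i * zs i) ∈ Ideal.span (Set.range zs) :=
      Submodule.sum_mem _ (fun i _ => Ideal.mul_mem_left _ _ (Ideal.subset_span ⟨i, rfl⟩))
    have := Submodule.add_mem_sup h3 h4
    simpa using this

theorem K2_x (d' : ℕ) (x : R) (hx : x ∈ maximalIdeal R) (hx2 : x ∉ maximalIdeal R ^ 2)
    (hreg : x ∈ nonZeroDivisors R) [IsLocalRing (R ⧸ Ideal.span {x})]
    (h1 : ∀ i, i ≠ d' → V (⊥ : Submodule (R ⧸ Ideal.span {x}) (R ⧸ Ideal.span {x})) i)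
    (ih : V (maximalIdeal (R ⧸ Ideal.span {x}) ^ 2 :
      Submodule (R ⧸ Ideal.span {x}) (R ⧸ Ideal.span {x})) d')
    (f : (Om (Sy (kk R) d')).C →ₗ[R] R) :
    ∃ b : (Fin (rk (Sy (kk R) d')) → R) →ₗ[R] R, ∀ s,
      f s - b (inc (Sy (kk R) d') s) ∈ maximalIdeal R ^ 2 ⊔ Ideal.span {x} := by
  have h2 : V (maximalIdeal (R ⧸ Ideal.span {x}) ^ 2 :
      Submodule (R ⧸ Ideal.span {x}) (R ⧸ Ideal.span {x})) (d' + 1) :=
    (h1 (d' + 1) (by omega)).mono bot_le
  have h3 : EZ (((maximalIdeal (R ⧸ Ideal.span {x}) ^ 2 : Ideal (R ⧸ Ideal.span {x}))).restrictScalars R :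
      Submodule R (R ⧸ Ideal.span {x})) (Sy (kk R) d').C :=
    (split x hx hx2 hreg _ d').2 ⟨h2, ih⟩
  obtain ⟨b', hb'⟩ := h3.exact (ses (Sy (kk R) d'))
    ((Submodule.mkQ (Ideal.span {x} : Submodule R R)) ∘ₗ f)
  obtain ⟨b, hb⟩ := Module.projective_lifting_property
    (Submodule.mkQ (Ideal.span {x} : Submodule R R)) b' (Submodule.mkQ_surjective _)
  refine ⟨b, fun s => ?_⟩
  have h4 := hb' s
  have h5 : b' (inc (Sy (kk R) d') s) =
      Submodule.mkQ (Ideal.span {x} : Submodule R R) (b (inc (Sy (kk R) d') s)) := by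
    rw [← hb]; rfl
  rw [h5, LinearMap.comp_apply, ← map_sub] at h4
  have h6 : Ideal.Quotient.mk (Ideal.span {x}) (f s - b (inc (Sy (kk R) d') s)) ∈
      maximalIdeal (R ⧸ Ideal.span {x}) ^ 2 := h4
  rw [← map_maximalIdeal_quot x hx, ← Ideal.map_pow, ← Ideal.mem_comap,
    Ideal.comap_map_of_surjective _ Ideal.Quotient.mk_surjective] at h6
  rw [← RingHom.ker_eq_comap_bot, Ideal.mk_ker] at h6
  exact h6

/-- base case of (K2) -/
theorem K2_zero (h1 : V (⊥ : Submodule R R) 1) (hNG : NG R 1) :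
    V (maximalIdeal R ^ 2 : Submodule R R) 0 := by
  classical
  intro n hn
  by_contra hn2
  have hnm : n ∈ maximalIdeal R := by
    by_contra h
    have hu : IsUnit n := by
      by_contra h'
      exact h ((mem_maximalIdeal _).2 h')
    apply hNG (fun _ => 0) (fun _ => Submodule.zero_mem _)
    intro y hy
    have h2 := hn y hy
    rw [smul_eq_mul] at h2
    have : y = 0 := by
      obtain ⟨u, rfl⟩ := hu
      exact (Units.mul_left_eq_zero u).1 h2
    rw [this]
    exact Submodule.zero_mem _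
  -- a functional on `m/m²` with value one at `n`
  set c0 : CotangentSpace R := (maximalIdeal R).toCotangent ⟨n, hnm⟩ with hc0
  have hc0ne : c0 ≠ 0 := by
    intro h
    exact hn2 ((Ideal.toCotangent_eq_zero _ _).1 h)
  obtain ⟨v0, hv0⟩ : ∃ v : Module.Dual (ResidueField R) (CotangentSpace R), v c0 ≠ 0 := by
    by_contra hcon
    push Not at hcon
    exact hc0ne ((Module.forall_dual_apply_eq_zero_iff (ResidueField R) c0).1 hcon)
  let v : Module.Dual (ResidueField R) (CotangentSpace R) := (v0 c0)⁻¹ • v0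
  have hv : v c0 = 1 := by simp [v, hv0]
  -- `k → R`, `1 ↦ n`
  let resL : R →ₗ[R] ResidueField R := Algebra.linearMap R (ResidueField R)
  have hses : SES ((maximalIdeal R).subtype : maximalIdeal R →ₗ[R] R) resL := by
    refine ⟨Subtype.val_injective, residue_surjective, ?_⟩
    intro y
    constructor
    · intro hy
      exact ⟨⟨y, (residue_eq_zero_iff y).1 hy⟩, rfl⟩
    · rintro ⟨z, rfl⟩
      exact (residue_eq_zero_iff _).2 z.2
  obtain ⟨e, he⟩ := hses.desc (LinearMap.toSpanSingleton R R n) (fun k => by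
    rw [LinearMap.toSpanSingleton_apply]
    exact hn _ k.2)
  have he' : ∀ r, e (residue R r) = r * n := fun r => he r
  let vR : maximalIdeal R →ₗ[R] ResidueField R :=
    (v.restrictScalars R) ∘ₗ (maximalIdeal R).toCotangent
  obtain ⟨b, hb⟩ := EZ.exact (M := (kk R).C) h1 hses (e ∘ₗ vR)
  have hb' : ∀ z : maximalIdeal R, e (vR z) = z.1 * b 1 := by
    intro z
    have h2 := hb z
    rw [Submodule.mem_bot, sub_eq_zero] at h2
    rw [LinearMap.comp_apply] at h2
    rw [h2]
    have h3 : b z.1 = b (z.1 • (1 : R)) := by simp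
    rw [Submodule.subtype_apply, h3, map_smul, smul_eq_mul]
  have hvn : vR ⟨n, hnm⟩ = residue R 1 := by
    rw [map_one]; exact hv
  have h3 := hb' ⟨n, hnm⟩
  rw [hvn, he', one_mul] at h3
  have hu : IsUnit (b 1) := by
    by_contra h'
    have h4 := hn (b 1) ((mem_maximalIdeal _).2 h')
    rw [smul_eq_mul, mul_comm] at h4
    rw [h4] at h3
    rw [h3] at hn2
    exact hn2 (Submodule.zero_mem _)
  apply hNG (fun _ => n) (fun _ => hnm)
  intro y hy
  obtain ⟨a, ha⟩ := residue_surjective (R := R) (vR ⟨y, hy⟩)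
  have h5 : vR (⟨y, hy⟩ - a • ⟨n, hnm⟩) = 0 := by
    rw [map_sub, map_smul, hvn, ← ha, Algebra.smul_def]
    rw [map_one, mul_one]
    exact sub_self _
  have h6 := hb' (⟨y, hy⟩ - a • ⟨n, hnm⟩)
  rw [h5, map_zero] at h6
  have h7 : y - a * n = 0 := by
    obtain ⟨u, hu⟩ := hu
    have h8 : (y - a * n) * b 1 = 0 := h6.symm
    rw [← hu] at h8
    exact (Units.mul_left_eq_zero u).1 h8
  rw [sub_eq_zero] at h7
  rw [h7]
  exact Ideal.mul_mem_left _ _ (Ideal.subset_span ⟨0, rfl⟩)

theorem K2_combine (M : FM R) (d' : ℕ) (hA : Ac R d' M.C) (hNG : NG R (d' + 2)) (x x' : R)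
    (hx : x ∈ maximalIdeal R) (hx' : x' ∈ maximalIdeal R)
    (hx2' : x' ∉ maximalIdeal R ^ 2 ⊔ Ideal.span {x}) (f : (Om M).C →ₗ[R] R)
    (b b' : (Fin (rk M) → R) →ₗ[R] R)
    (hb : ∀ s, f s - b (inc M s) ∈ maximalIdeal R ^ 2 ⊔ Ideal.span {x})
    (hb' : ∀ s, f s - b' (inc M s) ∈ maximalIdeal R ^ 2 ⊔ Ideal.span {x'})
    (s : (Om M).C) : f s - b (inc M s) ∈ maximalIdeal R ^ 2 := by
  classical
  let β : (Fin (rk M) → R) →ₗ[R] R := b - b'
  let I : Ideal R := maximalIdeal R ^ 2 ⊔ (Ideal.span {x} ⊔ Ideal.span {x'})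
  have hle1 : maximalIdeal R ^ 2 ⊔ Ideal.span {x} ≤ I := sup_le_sup_left le_sup_left _
  have hle2 : maximalIdeal R ^ 2 ⊔ Ideal.span {x'} ≤ I := sup_le_sup_left le_sup_right _
  have hβI : ∀ s, β (inc M s) ∈ I := by
    intro s
    have h2 : β (inc M s) = (f s - b' (inc M s)) - (f s - b (inc M s)) := by
      simp [β]
    rw [h2]
    exact Ideal.sub_mem _ (hle2 (hb' s)) (hle1 (hb s))
  have hβm : ∀ p, β p ∈ maximalIdeal R := by
    intro p
    by_contra hp
    have hu : IsUnit (β p) := by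
      by_contra h
      exact hp ((mem_maximalIdeal _).2 h)
    obtain ⟨u, hu⟩ := hu
    obtain ⟨f', hf'⟩ := (ses M).desc ((Submodule.mkQ (I : Submodule R R)) ∘ₗ β) (fun k => by
      rw [LinearMap.comp_apply]
      exact (Submodule.Quotient.mk_eq_zero _).2 (hβI k))
    have hsurj : Function.Surjective f' := by
      intro z
      obtain ⟨r, hr⟩ := Submodule.mkQ_surjective _ z
      refine ⟨(r * (↑u⁻¹ : R)) • cov M p, ?_⟩
      rw [map_smul, hf', LinearMap.comp_apply, ← map_smul, ← hr, ← hu]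
      simp [mul_assoc]
    obtain ⟨ys, hys, hle⟩ := hA I le_sup_left f' hsurj
    refine hNG.nakayama (Fin.cons x (Fin.cons x' ys)) ?_ ?_
    · intro i
      refine Fin.cases ?_ (fun i => ?_) i
      · simpa using hx
      · refine Fin.cases ?_ (fun i => ?_) i
        · simpa using hx'
        · simpa using hys i
    · rw [Fin.range_cons, Fin.range_cons, Ideal.span_insert, Ideal.span_insert]
      refine hle.trans (le_of_eq ?_)
      simp only [I, sup_assoc]
  have hβ2 : β (inc M s) ∈ maximalIdeal R ^ 2 := by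
    have h2 : inc M s = ∑ i, (inc M s i) • (Pi.single i (1 : R) : Fin (rk M) → R) := by
      funext i
      simp [Finset.sum_apply, Pi.single_apply]
    rw [h2, map_sum, pow_two]
    refine Submodule.sum_mem _ (fun i _ => ?_)
    rw [map_smul, smul_eq_mul]
    exact Ideal.mul_mem_mul (inc_mem M s i) (hβm _)
  have hA := hb s
  have hB : f s - b (inc M s) ∈ maximalIdeal R ^ 2 ⊔ Ideal.span {x'} := by
    have h2 : f s - b (inc M s) = (f s - b' (inc M s)) - β (inc M s) := by
      simp [β]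
    rw [h2]
    exact Ideal.sub_mem _ (hb' s) (Ideal.mem_sup_left hβ2)
  -- intersection
  obtain ⟨n, hn, t, ht, hnt⟩ := Submodule.mem_sup.1 hA
  obtain ⟨n', hn', t', ht', hnt'⟩ := Submodule.mem_sup.1 hB
  obtain ⟨a, rfl⟩ := Ideal.mem_span_singleton'.1 ht
  obtain ⟨a', rfl⟩ := Ideal.mem_span_singleton'.1 ht'
  by_cases ha' : a' ∈ maximalIdeal R
  · rw [← hnt']
    refine Ideal.add_mem _ hn' ?_
    rw [pow_two]
    exact Ideal.mul_mem_mul ha' hx'
  · exfalso
    have hu : IsUnit a' := by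
      by_contra h
      exact ha' ((mem_maximalIdeal _).2 h)
    obtain ⟨u, rfl⟩ := hu
    apply hx2'
    have h2 : x' = (↑u⁻¹ : R) * (n + a * x - n') := by
      have h3 : n + a * x - n' = u * x' := by
        rw [hnt, ← hnt']; ring
      rw [h3, ← mul_assoc, Units.inv_mul, one_mul]
    rw [h2]
    refine Ideal.mul_mem_left _ _ (Ideal.sub_mem _ (Ideal.add_mem _ (Ideal.mem_sup_left hn) ?_)
      (Ideal.mem_sup_left hn'))
    exact Ideal.mem_sup_right (Ideal.mul_mem_left _ _ (Ideal.mem_span_singleton_self x))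

end

/-- **(K2)** -/
theorem K2 (d : ℕ) : ∀ (R : Type) [CommRing R] [IsNoetherianRing R] [IsLocalRing R],
    (∀ i, i ≠ d → V (⊥ : Submodule R R) i) → NG R (d + 1) →
    V (maximalIdeal R ^ 2 : Submodule R R) d := by
  classical
  induction d with
  | zero =>
    intro R _ _ _ h1 hNG
    exact K2_zero (h1 1 (by omega)) hNG
  | succ d' IH =>
    intro R _ _ _ h1 hNG
    have h0 : V (⊥ : Submodule R R) 0 := h1 0 (by omega)
    have hm2 : ¬ maximalIdeal R ≤ maximalIdeal R ^ 2 := by
      intro h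
      refine (hNG.mono (n' := 0) (by omega)).nakayama Fin.elim0 (fun i => i.elim0) ?_
      exact h.trans le_sup_left
    obtain ⟨x, hx, hx2, hxr⟩ := exists_regular _ hm2 h0
    have hm3 : ¬ maximalIdeal R ≤ maximalIdeal R ^ 2 ⊔ Ideal.span {x} := by
      intro h
      refine (hNG.mono (n' := 1) (by omega)).nakayama (fun _ => x) (fun _ => hx) ?_
      rwa [Set.range_const]
    obtain ⟨x', hx', hx2', hxr'⟩ := exists_regular _ hm3 h0
    have hx3' : x' ∉ maximalIdeal R ^ 2 := fun h => hx2' (Ideal.mem_sup_left h)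
    have key : ∀ z : R, z ∈ maximalIdeal R → z ∉ maximalIdeal R ^ 2 → z ∈ nonZeroDivisors R →
        ∀ f : (Om (Sy (kk R) d')).C →ₗ[R] R,
        ∃ b : (Fin (rk (Sy (kk R) d')) → R) →ₗ[R] R, ∀ s,
          f s - b (inc (Sy (kk R) d') s) ∈ maximalIdeal R ^ 2 ⊔ Ideal.span {z} := by
      intro z hz hz2 hzr f
      have := isLocalRing_quot z hz
      have h2 := descent d' z hz hz2 hzr h1
      exact K2_x d' z hz hz2 hzr h2 (IH _ h2 (hNG.quot z hz)) f
    change EZ (maximalIdeal R ^ 2 : Submodule R R) (Sy (kk R) d').C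
    refine EZ.of_exact (ses (Sy (kk R) d')) (fun f => ?_)
    obtain ⟨b, hb⟩ := key x hx hx2 hxr f
    obtain ⟨b', hb'⟩ := key x' hx' hx3' hxr' f
    exact ⟨b, K2_combine (Sy (kk R) d') d' (Ac_sy d') hNG x x' hx hx' hx2' f b b' hb hb'⟩

end EA7
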