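import Pool.Agent.Lib.MP_ea7a64_al_h50.Syz

/-!
# The classes `Pc`, `Qc` and the main theorem on minimal reductions
-/

set_option autoImplicit false
set_option linter.unusedSectionVars false

open IsLocalRing

namespace EA7

section Pc

variable (R : Type) [CommRing R] [IsLocalRing R]

/-- every functional with values in `m²` lies in `m • Hom(M,R)`. -/
def Pc (M : Type) [AddCommGroup M] [Module R M] : Prop :=
  ∀ φ : M →ₗ[R] R, (∀ x, φ x ∈ maximalIdeal R ^ 2) →
    φ ∈ maximalIdeal R • (⊤ : Submodule R (M →ₗ[R] R))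

variable {R}
variable {M M' : Type} [AddCommGroup M] [Module R M] [AddCommGroup M'] [Module R M']

theorem mem_smul_comp {I : Ideal R} {φ : M' →ₗ[R] R}
    (h : φ ∈ I • (⊤ : Submodule R (M' →ₗ[R] R))) (f : M →ₗ[R] M') :
    φ ∘ₗ f ∈ I • (⊤ : Submodule R (M →ₗ[R] R)) := by
  induction h using Submodule.smul_induction_on' with
  | smul r hr n hn =>
    rw [LinearMap.smul_comp]
    exact Submodule.smul_mem_smul hr trivial
  | add x hx y hy h1 h2 =>
    rw [LinearMap.add_comp]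
    exact Submodule.add_mem _ h1 h2

theorem Pc.of_retract (h : Pc R M') (i : M →ₗ[R] M') (r : M' →ₗ[R] M) (hir : ∀ x, r (i x) = x) :
    Pc R M := by
  intro φ hφ
  have h1 := h (φ ∘ₗ r) (fun x => hφ _)
  have h2 := mem_smul_comp h1 i
  have h3 : (φ ∘ₗ r) ∘ₗ i = φ := by
    ext x
    simp [hir]
  rwa [h3] at h2

theorem Pc.equiv (h : Pc R M) (e : M ≃ₗ[R] M') : Pc R M' :=
  h.of_retract e.symm.toLinearMap e.toLinearMap (fun x => by simp)

theorem Pc.fst (h : Pc R (M × M')) : Pc R M :=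
  h.of_retract (LinearMap.inl R M M') (LinearMap.fst R M M') (fun _ => rfl)

theorem Pc.snd (h : Pc R (M × M')) : Pc R M' :=
  h.of_retract (LinearMap.inr R M M') (LinearMap.snd R M M') (fun _ => rfl)

theorem Pc.prod (h : Pc R M) (h' : Pc R M') : Pc R (M × M') := by
  intro φ hφ
  have h1 := mem_smul_comp (h (φ ∘ₗ LinearMap.inl R M M') (fun x => hφ _)) (LinearMap.fst R M M')
  have h2 := mem_smul_comp (h' (φ ∘ₗ LinearMap.inr R M M') (fun x => hφ _)) (LinearMap.snd R M M')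
  have h3 : φ = (φ ∘ₗ LinearMap.inl R M M') ∘ₗ LinearMap.fst R M M' +
      (φ ∘ₗ LinearMap.inr R M M') ∘ₗ LinearMap.snd R M M' := by
    ext x
    · simp only [LinearMap.comp_apply, LinearMap.add_apply, LinearMap.inl_apply,
        LinearMap.fst_apply, LinearMap.snd_apply, map_zero, add_zero]
    · simp only [LinearMap.comp_apply, LinearMap.add_apply, LinearMap.inr_apply,
        LinearMap.fst_apply, LinearMap.snd_apply, map_zero, zero_add]
  rw [h3]
  exact Submodule.add_mem _ h1 h2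

theorem mem_smul_top_of_proj [IsNoetherianRing R] (F : Type) [AddCommGroup F] [Module R F]
    [Module.Projective R F] (φ : F →ₗ[R] R) (hφ : ∀ x, φ x ∈ maximalIdeal R) :
    φ ∈ maximalIdeal R • (⊤ : Submodule R (F →ₗ[R] R)) := by
  classical
  obtain ⟨s, y, hy⟩ := Submodule.fg_iff_exists_fin_generating_family.1
    (IsNoetherian.noetherian (maximalIdeal R))
  have hyi : ∀ i, y i ∈ maximalIdeal R := fun i => by
    rw [← hy]; exact Submodule.subset_span ⟨i, rfl⟩
  let Φ : (Fin s → R) →ₗ[R] maximalIdeal R :=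
    LinearMap.codRestrict (maximalIdeal R) (Fintype.linearCombination R y) (fun z => by
      rw [Fintype.linearCombination_apply]
      exact Submodule.sum_mem _ (fun i _ => Ideal.mul_mem_left _ _ (hyi i)))
  have hΦ : Function.Surjective Φ := by
    rintro ⟨x, hx⟩
    rw [← hy] at hx
    obtain ⟨c, hc⟩ := (Submodule.mem_span_range_iff_exists_fun R).1 hx
    refine ⟨c, Subtype.ext ?_⟩
    simp only [Φ, LinearMap.codRestrict_apply, Fintype.linearCombination_apply]
    exact hc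
  obtain ⟨ψ, hψ⟩ := Module.projective_lifting_property Φ
    (LinearMap.codRestrict (maximalIdeal R) φ hφ) hΦ
  have h1 : φ = ∑ i, y i • (LinearMap.proj i ∘ₗ ψ : F →ₗ[R] R) := by
    ext x
    have := congrArg Subtype.val (LinearMap.congr_fun hψ x)
    simp only [Φ, LinearMap.comp_apply, LinearMap.codRestrict_apply,
      Fintype.linearCombination_apply] at this
    rw [← this]
    simp [LinearMap.sum_apply, mul_comm]
  rw [h1]
  exact Submodule.sum_mem _ (fun i _ => Submodule.smul_mem_smul (hyi i) trivial)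

theorem Pc.proj [IsNoetherianRing R] (F : Type) [AddCommGroup F] [Module R F]
    [Module.Projective R F] : Pc R F :=
  fun φ hφ => mem_smul_top_of_proj F φ (fun x => Ideal.pow_le_self two_ne_zero (hφ x))

theorem Pc.stabEq [IsNoetherianRing R] (h : Pc R M) (hs : StabEq R M M') : Pc R M' := by
  obtain ⟨P, Q, ⟨e⟩⟩ := hs
  exact ((h.prod (Pc.proj P.C)).equiv e).fst

theorem Pc.pow [IsNoetherianRing R] {M : FM R} (h : Pc R M.C) (n : ℕ) : Pc R (M.pow n).C := by
  induction n with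
  | zero =>
    intro φ _
    have : φ = 0 := by
      ext x
      have : x = 0 := rfl
      rw [this]; simp
    rw [this]
    exact Submodule.zero_mem _
  | succ n ih => exact h.prod ih

theorem EZ.pow [IsNoetherianRing R] {M : FM R} {N : Type} [AddCommGroup N] [Module R N]
    {S : Submodule R N} (h : EZ S M.C) (n : ℕ) : EZ S (M.pow n).C := by
  induction n with
  | zero => exact EZ.proj S (PUnit : Type)
  | succ n ih => exact h.prod ih

end Pc

section Ext

variable {R : Type} [CommRing R]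

/-- If all functionals extend along `j` then all maps to f.g. projectives extend. -/
theorem extend_proj {K G : Type} [AddCommGroup K] [Module R K] [AddCommGroup G] [Module R G]
    (j : K →ₗ[R] G) (h : ∀ f : K →ₗ[R] R, ∃ g : G →ₗ[R] R, ∀ x, g (j x) = f x)
    (P : Type) [AddCommGroup P] [Module R P] [Module.Finite R P] [Module.Projective R P]
    (f : K →ₗ[R] P) : ∃ g : G →ₗ[R] P, ∀ x, g (j x) = f x := by
  obtain ⟨n, s, hs⟩ := Module.Finite.exists_fin' R P
  obtain ⟨t, ht⟩ := Module.projective_lifting_property s LinearMap.id hs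
  choose g hg using fun i : Fin n => h (LinearMap.proj i ∘ₗ t ∘ₗ f)
  refine ⟨s ∘ₗ LinearMap.pi g, fun x => ?_⟩
  have h1 : LinearMap.pi g (j x) = t (f x) := by
    funext i
    rw [LinearMap.pi_apply, hg]
    rfl
  rw [LinearMap.comp_apply, h1]
  exact LinearMap.congr_fun ht (f x)

end Ext

section Qc

variable (R : Type) [CommRing R] [IsLocalRing R]

/-- `K` has a left approximation by a f.g. projective with cokernel in `Pc`. -/
def Qc (K : Type) [AddCommGroup K] [Module R K] : Prop :=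
  ∃ (G : FP R) (C : FM R) (j : K →ₗ[R] G.C) (q : G.C →ₗ[R] C.C), SES j q ∧
    (∀ f : K →ₗ[R] R, ∃ g : G.C →ₗ[R] R, ∀ x, g (j x) = f x) ∧ Pc R C.C

variable {R}

theorem Qc.prod {K K' : Type} [AddCommGroup K] [Module R K] [AddCommGroup K'] [Module R K']
    (h : Qc R K) (h' : Qc R K') : Qc R (K × K') := by
  obtain ⟨G, C, j, q, hs, hext, hC⟩ := h
  obtain ⟨G', C', j', q', hs', hext', hC'⟩ := h'
  refine ⟨⟨G.C × G'.C⟩, ⟨C.C × C'.C⟩, j.prodMap j', q.prodMap q', hs.prod hs', fun f => ?_,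
    hC.prod hC'⟩
  obtain ⟨g, hg⟩ := hext (f ∘ₗ LinearMap.inl R _ _)
  obtain ⟨g', hg'⟩ := hext' (f ∘ₗ LinearMap.inr R _ _)
  refine ⟨g.coprod g', fun x => ?_⟩
  rw [LinearMap.prodMap_apply, LinearMap.coprod_apply, hg, hg', LinearMap.comp_apply,
    LinearMap.comp_apply, ← map_add]
  congr 1
  simp

theorem Qc.of_proj (P : Type) [AddCommGroup P] [Module R P] [Module.Finite R P]
    [Module.Projective R P] : Qc R P := by
  refine ⟨⟨P⟩, ⟨PUnit⟩, LinearMap.id, 0, ?_, fun f => ⟨f, fun x => rfl⟩, ?_⟩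
  · refine ⟨Function.injective_id, fun x => ⟨0, rfl⟩, fun x => ⟨fun _ => ⟨x, rfl⟩, fun _ => rfl⟩⟩
  · intro φ _
    have : φ = 0 := by
      ext x
      have : x = 0 := rfl
      rw [this]; simp
    rw [this]
    exact Submodule.zero_mem _

theorem Qc.pow [IsNoetherianRing R] {M : FM R} (h : Qc R M.C) (n : ℕ) : Qc R (M.pow n).C := by
  induction n with
  | zero => exact Qc.of_proj (PUnit : Type)
  | succ n ih => exact h.prod ih

/-- the cosyzygy retract argument -/
theorem Pc_of_Qc [IsNoetherianRing R] {K' : Type} [AddCommGroup K'] [Module R K'] (hQ : Qc R K')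
    {X₁ P X : Type} [AddCommGroup X₁] [Module R X₁] [AddCommGroup P] [Module R P]
    [Module.Finite R P] [Module.Projective R P] [AddCommGroup X] [Module R X]
    {ι : X₁ →ₗ[R] P} {π : P →ₗ[R] X} (hs : SES ι π) (hEZ : EZ (⊥ : Submodule R R) X)
    (i : X₁ →ₗ[R] K') (r : K' →ₗ[R] X₁) (hir : ∀ x, r (i x) = x) : Pc R X := by
  obtain ⟨G, C, j, q, hsq, hext, hC⟩ := hQ
  have hextP : ∀ f : X₁ →ₗ[R] R, ∃ g : P →ₗ[R] R, ∀ x, g (ι x) = f x := by
    intro f
    obtain ⟨b, hb⟩ := hEZ.exact hs f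
    refine ⟨b, fun x => ?_⟩
    have := hb x
    rw [Submodule.mem_bot, sub_eq_zero] at this
    exact this.symm
  obtain ⟨a, ha⟩ := extend_proj ι hextP G.C (j ∘ₗ i)
  obtain ⟨c, hc⟩ := extend_proj j hext P (ι ∘ₗ r)
  obtain ⟨ib, hib⟩ := hs.desc (q ∘ₗ a) (fun k => by
    rw [LinearMap.comp_apply, ha, LinearMap.comp_apply, hsq.comp_eq_zero])
  obtain ⟨rb, hrb⟩ := hsq.desc (π ∘ₗ c) (fun k => by
    rw [LinearMap.comp_apply, hc, LinearMap.comp_apply, hs.comp_eq_zero])
  obtain ⟨g, hg⟩ := hs.desc (c ∘ₗ a - LinearMap.id) (fun k => by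
    rw [LinearMap.sub_apply, LinearMap.comp_apply, ha, LinearMap.comp_apply, hc,
      LinearMap.comp_apply, hir, LinearMap.id_apply, sub_self])
  have key : Pc R (C.C × P) := hC.prod (Pc.proj P)
  refine key.of_retract (ib.prod (-g)) (rb.coprod π) (fun x => ?_)
  obtain ⟨p, rfl⟩ := hs.surj x
  have e1 : (ib.prod (-g)) (π p) = (ib (π p), - g (π p)) := rfl
  rw [e1, LinearMap.coprod_apply]
  simp only [map_neg]
  rw [hib, hg, LinearMap.comp_apply, hrb]
  simp

end Qc

section Kw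

variable {R : Type} [CommRing R] [IsNoetherianRing R] [IsLocalRing R]

/-- pull-back of the cover of `M` along `w : M → M`. -/
noncomputable def Kw (w : R) (M : FM R) : FM R :=
  ⟨LinearMap.ker ((cov M).coprod (-(w • LinearMap.id)) : ((Fin (rk M) → R) × M.C) →ₗ[R] M.C)⟩

theorem mem_Kw {w : R} {M : FM R} (x : (Fin (rk M) → R) × M.C) :
    x ∈ LinearMap.ker ((cov M).coprod (-(w • LinearMap.id)) :
      ((Fin (rk M) → R) × M.C) →ₗ[R] M.C) ↔ cov M x.1 = w • x.2 := by
  rw [LinearMap.mem_ker, LinearMap.coprod_apply]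
  simp only [LinearMap.neg_apply, LinearMap.smul_apply, LinearMap.id_apply]
  rw [← sub_eq_add_neg, sub_eq_zero]

theorem Kw_base (w : R) (N N' : FM R) (hreg : ∀ x : N.C, w • x = 0 → x = 0)
    (q : N.C →ₗ[R] N'.C) (hq : Function.Surjective q) (hker : ∀ x, q x = 0 ↔ ∃ y, x = w • y) :
    StabEq R (Kw w N).C (Om N').C := by
  let κ : (Kw w N).C →ₗ[R] (Fin (rk N) → R) := LinearMap.fst R _ _ ∘ₗ Submodule.subtype _
  have hs : SES κ (q ∘ₗ cov N) := by
    refine ⟨?_, hq.comp (cov_surj N), ?_⟩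
    · rw [injective_iff_map_eq_zero]
      rintro ⟨⟨p, n⟩, hx⟩ hx0
      have h1 : p = 0 := hx0
      rw [mem_Kw] at hx
      simp only at hx
      subst h1
      rw [map_zero] at hx
      have := hreg n hx.symm
      subst this
      rfl
    · intro p
      constructor
      · intro hp
        obtain ⟨n, hn⟩ := (hker _).1 hp
        exact ⟨⟨(p, n), (mem_Kw (p, n)).2 hn⟩, rfl⟩
      · rintro ⟨⟨⟨p', n⟩, hx⟩, rfl⟩
        rw [mem_Kw] at hx
        exact (hker _).2 ⟨n, hx⟩
  exact (stabEq_om_of_ses N' hs).symm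

theorem Kw_step (w : R) (M : FM R) : StabEq R (Kw w (Om M)).C (Om (Kw w M)).C := by
  let Q := Fin (rk (Om M)) → R
  let P := Fin (rk M) → R
  let ι : (Kw w (Om M)).C →ₗ[R] (Q × P) :=
    ((LinearMap.id : Q →ₗ[R] Q).prodMap (-(inc M))) ∘ₗ Submodule.subtype _
  let Pj : (Q × P) →ₗ[R] (Kw w M).C :=
    LinearMap.codRestrict _
      (((inc M ∘ₗ cov (Om M)).coprod (w • LinearMap.id)).prod (cov M ∘ₗ LinearMap.snd R Q P))
      (fun x => by
        rw [mem_Kw]
        simp [(ses M).comp_eq_zero])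
  have hι : ∀ x : (Kw w (Om M)).C, ι x = (x.1.1, - inc M x.1.2) := fun x => rfl
  have hPj : ∀ x, (Pj x).1 = (inc M (cov (Om M) x.1) + w • x.2, cov M x.2) := fun x => by
    rfl
  have hs : SES ι Pj := by
    refine ⟨?_, ?_, ?_⟩
    · intro a b hab
      rw [hι, hι, Prod.mk.injEq, neg_inj] at hab
      exact Subtype.ext (Prod.ext hab.1 ((ses M).inj hab.2))
    · rintro ⟨⟨p', m'⟩, hx⟩
      rw [mem_Kw] at hx
      simp only at hx
      obtain ⟨p, hp⟩ := cov_surj M m'
      obtain ⟨κ, hκ⟩ := (ses M).exists_of_eq_zero (x := p' - w • p) (by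
        rw [map_sub, map_smul, hx, hp, sub_self])
      obtain ⟨y, hy⟩ := cov_surj (Om M) κ
      refine ⟨(y, p), Subtype.ext ?_⟩
      rw [hPj]
      simp only
      rw [hy, hκ, hp]
      simp
    · rintro ⟨y, p⟩
      constructor
      · intro h0
        have h1 : (Pj (y, p)).1 = 0 := by rw [h0]; rfl
        rw [hPj, Prod.mk_eq_zero] at h1
        obtain ⟨h2, h3⟩ := h1
        simp only at h2 h3
        obtain ⟨κ, hκ⟩ := (ses M).exists_of_eq_zero h3
        refine ⟨⟨(y, -κ), (mem_Kw (y, -κ)).2 ?_⟩, ?_⟩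
        · apply (ses M).inj
          simp only [smul_neg, map_neg, map_smul]
          rw [hκ]
          exact eq_neg_of_add_eq_zero_left h2
        · rw [hι]
          simp [hκ]
      · rintro ⟨x, hx⟩
        have hm := (mem_Kw x.1).1 x.2
        rw [hι, Prod.mk.injEq] at hx
        obtain ⟨h1, h2⟩ := hx
        apply Subtype.ext
        rw [hPj]
        simp only
        rw [← h1, ← h2, hm, map_neg, (ses M).comp_eq_zero]
        simp only [map_smul, smul_neg, add_neg_cancel, neg_zero]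
        rfl
  exact (stabEq_om_of_ses (Kw w M) hs).symm

theorem Kw_pow (w : R) (N k : FM R) (e : ℕ) (hreg : ∀ x : N.C, w • x = 0 → x = 0)
    (q : N.C →ₗ[R] (k.pow e).C) (hq : Function.Surjective q)
    (hker : ∀ x, q x = 0 ↔ ∃ y, x = w • y) (i : ℕ) :
    StabEq R (Kw w (Sy N i)).C ((Sy k (i + 1)).pow e).C := by
  induction i with
  | zero => exact (Kw_base w N (k.pow e) hreg q hq hker).trans (stabEq_om_pow k e)
  | succ i ih =>
    exact (Kw_step w (Sy N i)).trans ((StabEq.om ih).trans (stabEq_om_pow _ e))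

theorem Kw_split (w : R) (X : FM R) (h : StabZero w X.C) :
    Nonempty ((Kw w X).C ≃ₗ[R] ((Om X).C × X.C)) := by
  obtain ⟨g, hg⟩ := h.lift (cov X) (cov_surj X)
  let f : ((Om X).C × X.C) →ₗ[R] (Kw w X).C :=
    LinearMap.codRestrict _ (((inc X).coprod g).prod (LinearMap.snd R _ _)) (fun x => by
      rw [mem_Kw]
      simp [(ses X).comp_eq_zero, hg])
  have hf : ∀ x, (f x).1 = (inc X x.1 + g x.2, x.2) := fun x => rfl
  refine ⟨(LinearEquiv.ofBijective f ⟨?_, ?_⟩).symm⟩
  · intro a b hab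
    have := congrArg Subtype.val hab
    rw [hf, hf, Prod.mk.injEq] at this
    obtain ⟨h1, h2⟩ := this
    rw [h2] at h1
    exact Prod.ext ((ses X).inj (add_right_cancel h1)) h2
  · rintro ⟨⟨p, m'⟩, hx⟩
    rw [mem_Kw] at hx
    simp only at hx
    obtain ⟨κ, hκ⟩ := (ses X).exists_of_eq_zero (x := p - g m') (by
      rw [map_sub, hg, hx, sub_self])
    refine ⟨(κ, m'), Subtype.ext ?_⟩
    rw [hf]
    simp [hκ]

/-- **Main theorem.** -/
theorem main_theorem (k : FM R) (d' : ℕ) (hPc : Pc R (Sy k (d' + 2)).C)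
    (hEZ : EZ (⊥ : Submodule R R) (Sy k (d' + 1)).C) (hQc : Qc R (Sy k (d' + 1)).C)
    (hnot : ¬ Pc R (Sy k (d' + 1)).C)
    (w : R) (N : FM R) (e : ℕ) (he : 1 ≤ e) (hreg : ∀ x : N.C, w • x = 0 → x = 0)
    (q : N.C →ₗ[R] (k.pow e).C) (hq : Function.Surjective q)
    (hker : ∀ x, q x = 0 ↔ ∃ y, x = w • y) : ¬ StabZero w (Sy N d').C := by
  intro hX
  set X := Sy N d' with hXdef
  have hX1 : StabZero w (Om X).C := hX.om
  have s0 : StabEq R (Kw w X).C ((Sy k (d' + 1)).pow e).C := Kw_pow w N k e hreg q hq hker d'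
  have s1 : StabEq R (Kw w (Om X)).C ((Sy k (d' + 2)).pow e).C :=
    Kw_pow w N k e hreg q hq hker (d' + 1)
  obtain ⟨e0⟩ := Kw_split w X hX
  obtain ⟨e1⟩ := Kw_split w (Om X) hX1
  have hPX1 : Pc R (Om X).C := (((hPc.pow e).stabEq s1.symm).equiv e1).snd
  have hEZX : EZ (⊥ : Submodule R R) X.C := ((s0.symm.EZ (hEZ.pow e)).equiv e0).snd
  obtain ⟨P, Q, ⟨e2⟩⟩ := s0
  have hQ : Qc R (((Sy k (d' + 1)).pow e).C × Q.C) := (hQc.pow e).prod (Qc.of_proj Q.C)
  -- `X₁` is a retract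
  have hPX : Pc R X.C := by
    refine Pc_of_Qc hQ (ses X) hEZX
      (e2.toLinearMap ∘ₗ LinearMap.inl R _ _ ∘ₗ e0.symm.toLinearMap ∘ₗ LinearMap.inl R _ _)
      (LinearMap.fst R _ _ ∘ₗ e0.toLinearMap ∘ₗ LinearMap.fst R _ _ ∘ₗ e2.symm.toLinearMap)
      (fun x => ?_)
    simp
  have h1 : Pc R ((Sy k (d' + 1)).pow e).C :=
    ((hPX1.prod hPX).equiv e0.symm).stabEq ⟨P, Q, ⟨e2⟩⟩
  obtain ⟨e', rfl⟩ : ∃ e', e = e' + 1 := ⟨e - 1, by omega⟩
  exact hnot (Pc.fst (M' := ((Sy k (d' + 1)).pow e').C) h1)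

end Kw

end EA7
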