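import Pool.Agent.Lib.MP_ea7a64_al_h50.Vdef

/-!
# Reduction modulo a regular element: definition
-/

set_option autoImplicit false

open IsLocalRing

namespace EA7

/-- reduction modulo `x`: a semilinear surjection `M → M'` with kernel `xM`. -/
structure Red {R R' : Type} [CommRing R] [CommRing R'] {σ : R →+* R'} (x : R) {M M' : Type}
    [AddCommGroup M] [Module R M] [AddCommGroup M'] [Module R' M'] (ρ : M →ₛₗ[σ] M') : Prop where
  surj : Function.Surjective ρ
  ker : ∀ m, ρ m = 0 ↔ ∃ m', m = x • m'

end EA7
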