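import Pool.Agent.Lib.MP_ea7a64_al_h50.Red

/-!
# Reductions of syzygies, and comparison of the vanishing predicates
-/

set_option autoImplicit false
set_option linter.unusedSectionVars false

open IsLocalRing

namespace EA7

section

variable {R R' : Type} [CommRing R] [CommRing R'] {σ : R →+* R'} (hσ : Function.Surjective σ)
  {x : R} (hσx : ∀ r, σ r = 0 ↔ ∃ r', r = x * r')

include hσ hσx

/-- semilinear maps killing `xM` factor through a reduction. -/
theorem Red.desc {M M' : Type} [AddCommGroup M] [Module R M] [AddCommGroup M'] [Module R' M']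
    {ρ : M →ₛₗ[σ] M'} (hρ : Red x ρ) {N : Type} [AddCommGroup N] [Module R' N]
    (φ : M →ₛₗ[σ] N) : ∃ φ' : M' →ₗ[R'] N, ∀ m, φ' (ρ m) = φ m := by
  choose s hs using hρ.surj
  have hx0 : σ x = 0 := (hσx x).2 ⟨1, (mul_one x).symm⟩
  have key : ∀ a b, ρ a = ρ b → φ a = φ b := by
    intro a b hab
    obtain ⟨c, hc⟩ := (hρ.ker (a - b)).1 (by rw [map_sub, hab, sub_self])
    have h1 : φ (a - b) = 0 := by
      rw [hc, φ.map_smulₛₗ, hx0, zero_smul]
    rw [map_sub, sub_eq_zero] at h1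
    exact h1
  refine ⟨{ toFun := fun m => φ (s m), map_add' := ?_, map_smul' := ?_ }, ?_⟩
  · intro a b
    rw [← map_add]
    apply key
    rw [map_add, hs, hs, hs]
  · intro r' a
    obtain ⟨r, rfl⟩ := hσ r'
    rw [RingHom.id_apply, ← φ.map_smulₛₗ]
    apply key
    rw [ρ.map_smulₛₗ, hs, hs]
  · intro m
    exact key _ _ (hs _)

/-- the coordinatewise reduction of a finite free module. -/
theorem red_free (n : ℕ) : ∃ ρ : (Fin n → R) →ₛₗ[σ] (Fin n → R'), Red x ρ ∧
    ∀ p i, ρ p i = σ (p i) := by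
  refine ⟨{ toFun := fun p i => σ (p i), map_add' := ?_, map_smul' := ?_ }, ⟨?_, ?_⟩,
    fun _ _ => rfl⟩
  · intro a b; funext i; simp
  · intro r a; funext i; simp
  · intro p'
    choose s hs using fun i => hσ (p' i)
    exact ⟨s, funext hs⟩
  · intro p
    constructor
    · intro h
      choose s hs using fun i => (hσx (p i)).1 (congrFun h i)
      exact ⟨s, funext hs⟩
    · rintro ⟨q, rfl⟩
      funext i
      have hx0 : σ x = 0 := (hσx x).2 ⟨1, (mul_one x).symm⟩
      change σ (x * q i) = 0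
      rw [map_mul, hx0, zero_mul]

/-- induced cover and its kernel. -/
theorem red_cover {M M' : Type} [AddCommGroup M] [Module R M] [AddCommGroup M'] [Module R' M']
    {ρ : M →ₛₗ[σ] M'} (hρ : Red x ρ) (hreg : ∀ m : M, x • m = 0 → m = 0)
    {n : ℕ} {K : Type} [AddCommGroup K] [Module R K]
    {ι : K →ₗ[R] (Fin n → R)} {π : (Fin n → R) →ₗ[R] M} (hs : SES ι π) :
    ∃ (π' : (Fin n → R') →ₗ[R'] M') (ρ' : K →ₛₗ[σ] LinearMap.ker π'),
      Function.Surjective π' ∧ Red x ρ' ∧ (∀ k i, (ρ' k).1 i = σ (ι k i)) := by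
  obtain ⟨ρF, hρF, hρFi⟩ := red_free hσ hσx n
  obtain ⟨π', hπ'⟩ := hρF.desc hσ hσx
    ({ toFun := fun p => ρ (π p)
       map_add' := fun a b => by rw [map_add, map_add]
       map_smul' := fun r a => by rw [map_smul, ρ.map_smulₛₗ] } : (Fin n → R) →ₛₗ[σ] M')
  have hπ'' : ∀ p, π' (ρF p) = ρ (π p) := hπ'
  have hk : ∀ k, π' (ρF (ι k)) = 0 := fun k => by rw [hπ'', hs.comp_eq_zero, map_zero]
  refine ⟨π', { toFun := fun k => ⟨ρF (ι k), hk k⟩, map_add' := ?_, map_smul' := ?_ }, ?_,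
    ⟨?_, ?_⟩, ?_⟩
  · intro a b
    apply Subtype.ext
    change ρF (ι (a + b)) = ρF (ι a) + ρF (ι b)
    rw [map_add, map_add]
  · intro r a
    apply Subtype.ext
    change ρF (ι (r • a)) = σ r • ρF (ι a)
    rw [map_smul, ρF.map_smulₛₗ]
  · intro m'
    obtain ⟨m, rfl⟩ := hρ.surj m'
    obtain ⟨p, rfl⟩ := hs.surj m
    exact ⟨ρF p, hπ'' p⟩
  · rintro ⟨p', hp'⟩
    obtain ⟨p, rfl⟩ := hρF.surj p'
    rw [LinearMap.mem_ker, hπ''] at hp'
    obtain ⟨m, hm⟩ := (hρ.ker _).1 hp'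
    obtain ⟨q, rfl⟩ := hs.surj m
    obtain ⟨k, hk'⟩ := hs.exists_of_eq_zero (x := p - x • q) (by
      rw [map_sub, map_smul, hm, sub_self])
    refine ⟨k, Subtype.ext ?_⟩
    change ρF (ι k) = ρF p
    rw [hk', map_sub]
    have : ρF (x • q) = 0 := (hρF.ker _).2 ⟨q, rfl⟩
    rw [this, sub_zero]
  · intro k
    constructor
    · intro h
      have h1 : ρF (ι k) = 0 := congrArg Subtype.val h
      obtain ⟨q, hq⟩ := (hρF.ker _).1 h1
      have h2 : x • π q = 0 := by rw [← map_smul, ← hq, hs.comp_eq_zero]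
      obtain ⟨k', hk'⟩ := hs.exists_of_eq_zero (hreg _ h2)
      refine ⟨k', hs.inj ?_⟩
      rw [map_smul, hk', hq]
    · rintro ⟨k', rfl⟩
      apply Subtype.ext
      change ρF (ι (x • k')) = 0
      rw [map_smul]
      exact (hρF.ker _).2 ⟨_, rfl⟩
  · intro k i
    exact hρFi _ _

end

section

variable {R : Type} [CommRing R] [IsNoetherianRing R] [IsLocalRing R]

theorem mk_zero_iff (x r : R) :
    Ideal.Quotient.mk (Ideal.span {x}) r = 0 ↔ ∃ r', r = x * r' := by
  rw [Ideal.Quotient.eq_zero_iff_mem, Ideal.mem_span_singleton]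
  rfl

theorem smul_quot' (x r : R) (z : R ⧸ Ideal.span {x}) :
    r • z = Ideal.Quotient.mk (Ideal.span {x}) r * z := by
  rw [Algebra.smul_def]; rfl

/-- Task C1 -/
theorem EZ_red (x : R)
    (S : Ideal (R ⧸ Ideal.span {x})) (M : FM R)
    (M' : Type) [AddCommGroup M'] [Module (R ⧸ Ideal.span {x}) M']
    (hreg : ∀ m : M.C, x • m = 0 → m = 0)
    (ρ : M.C →ₛₗ[Ideal.Quotient.mk (Ideal.span {x})] M') (hρ : Red x ρ) :
    EZ (S.restrictScalars R : Submodule R (R ⧸ Ideal.span {x})) M.C ↔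
      EZ (S : Submodule (R ⧸ Ideal.span {x}) (R ⧸ Ideal.span {x})) M' := by
  have hσ : Function.Surjective (Ideal.Quotient.mk (Ideal.span {x})) := Ideal.Quotient.mk_surjective
  have hσx := mk_zero_iff x
  obtain ⟨π', ρ', hπ', hρ', hι⟩ := red_cover hσ hσx hρ hreg (ses M)
  obtain ⟨ρF, hρF, hρFi⟩ := red_free hσ hσx (rk M)
  have hιF : ∀ k, (ρ' k).1 = ρF (inc M k) := fun k => by
    funext i
    rw [hι, hρFi]
  have hs' := SES.of_surj π' hπ'
  constructor
  · intro h
    refine EZ.of_exact hs' (fun φ' => ?_)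
    let φ : (Om M).C →ₗ[R] (R ⧸ Ideal.span {x}) :=
      { toFun := fun k => φ' (ρ' k)
        map_add' := fun a b => by rw [map_add, map_add]
        map_smul' := fun r a => by
          rw [ρ'.map_smulₛₗ, map_smul, RingHom.id_apply, smul_quot', smul_eq_mul] }
    obtain ⟨b, hb⟩ := h.exact (ses M) φ
    obtain ⟨b', hb'⟩ := hρF.desc hσ hσx
      ({ toFun := fun p => b p
         map_add' := fun a c => by rw [map_add]
         map_smul' := fun r a => by rw [map_smul, smul_quot', smul_eq_mul] } :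
        (Fin (rk M) → R) →ₛₗ[Ideal.Quotient.mk (Ideal.span {x})] (R ⧸ Ideal.span {x}))
    refine ⟨b', fun k' => ?_⟩
    obtain ⟨k, rfl⟩ := hρ'.surj k'
    have h1 := hb k
    have h2 : b' ((LinearMap.ker π').subtype (ρ' k)) = b (inc M k) := by
      rw [Submodule.subtype_apply, hιF]
      exact hb' _
    rw [h2]
    exact h1
  · intro h
    refine EZ.of_exact (ses M) (fun φ => ?_)
    obtain ⟨φ', hφ'⟩ := hρ'.desc hσ hσx
      ({ toFun := fun k => φ k
         map_add' := fun a c => by rw [map_add]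
         map_smul' := fun r a => by rw [map_smul, smul_quot', smul_eq_mul] } :
        (Om M).C →ₛₗ[Ideal.Quotient.mk (Ideal.span {x})] (R ⧸ Ideal.span {x}))
    obtain ⟨b', hb'⟩ := h.exact hs' φ'
    refine ⟨{ toFun := fun p => b' (ρF p)
              map_add' := fun a c => by rw [map_add, map_add]
              map_smul' := fun r a => by
                rw [ρF.map_smulₛₗ, map_smul, RingHom.id_apply, smul_quot', smul_eq_mul] },
      fun k => ?_⟩
    have h1 := hb' (ρ' k)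
    rw [Submodule.subtype_apply, hιF] at h1
    have h2 : φ' (ρ' k) = φ k := hφ' k
    rw [h2] at h1
    exact h1

theorem om_reg (x : R) (hxR : x ∈ nonZeroDivisors R) (M : FM R) (k : (Om M).C)
    (hk : x • k = 0) : k = 0 := by
  apply (ses M).inj
  have h1 : x • inc M k = 0 := by rw [← map_smul, hk, map_zero]
  rw [map_zero]
  funext j
  have h2 : x * inc M k j = 0 := congrFun h1 j
  exact (mem_nonZeroDivisors_iff.1 hxR).1 _ h2

/-- Task C2 -/
theorem red_sy (x : R)
    (hxR : x ∈ nonZeroDivisors R) [IsLocalRing (R ⧸ Ideal.span {x})] (M : FM R)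
    (M' : FM (R ⧸ Ideal.span {x})) (hreg : ∀ m : M.C, x • m = 0 → m = 0)
    (ρ : M.C →ₛₗ[Ideal.Quotient.mk (Ideal.span {x})] M'.C) (hρ : Red x ρ) (i : ℕ) :
    ∃ (Z : FM (R ⧸ Ideal.span {x}))
      (ρ' : (Sy M i).C →ₛₗ[Ideal.Quotient.mk (Ideal.span {x})] Z.C), Red x ρ' ∧
      StabEq (R ⧸ Ideal.span {x}) Z.C (Sy M' i).C ∧
      (∀ m : (Sy M i).C, x • m = 0 → m = 0) := by
  induction i with
  | zero => exact ⟨M', ρ, hρ, StabEq.refl _, hreg⟩
  | succ i ih =>
    obtain ⟨Z, ρ₁, hρ₁, hZ, hreg₁⟩ := ih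
    have hσ : Function.Surjective (Ideal.Quotient.mk (Ideal.span {x})) :=
      Ideal.Quotient.mk_surjective
    have hσx := mk_zero_iff x
    obtain ⟨π', ρ', hπ', hρ', hι⟩ := red_cover hσ hσx hρ₁ hreg₁ (ses (Sy M i))
    refine ⟨⟨LinearMap.ker π'⟩, ρ', hρ', ?_, ?_⟩
    · exact hZ.ker (SES.of_surj π' hπ') (ses (Sy M' i))
    · exact fun k hk => om_reg x hxR (Sy M i) k hk

end

end EA7
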