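import Pool.Agent.Lib.MP_ea7a64_al_h50.Basic

/-!
# Stable equivalence and the stable annihilator
-/

set_option autoImplicit false

open IsLocalRing

namespace EA7

section StabZero

variable {R : Type} [CommRing R]

/-- multiplication by `r` on `M` factors through a projective module. -/
def StabZero (r : R) (M : Type) [AddCommGroup M] [Module R M] : Prop :=
  ∃ (F : Type) (_ : AddCommGroup F) (_ : Module R F) (_ : Module.Projective R F)
    (f : M →ₗ[R] F) (g : F →ₗ[R] M), ∀ x, g (f x) = r • x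

variable {M : Type} [AddCommGroup M] [Module R M]

theorem StabZero.lift {r : R} (h : StabZero r M) {F : Type} [AddCommGroup F] [Module R F]
    (π : F →ₗ[R] M) (hπ : Function.Surjective π) : ∃ g : M →ₗ[R] F, ∀ x, π (g x) = r • x := by
  obtain ⟨F', _, _, _, f, g, hfg⟩ := h
  obtain ⟨g', hg'⟩ := Module.projective_lifting_property π g hπ
  refine ⟨g' ∘ₗ f, fun x => ?_⟩
  have := LinearMap.congr_fun hg' (f x)
  rw [LinearMap.comp_apply] at this
  rw [LinearMap.comp_apply, this, hfg]

theorem StabZero.of_lift {r : R} {F : Type} [AddCommGroup F] [Module R F]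
    [hF : Module.Projective R F] (π : F →ₗ[R] M) (g : M →ₗ[R] F) (h : ∀ x, π (g x) = r • x) :
    StabZero r M :=
  ⟨F, inferInstance, inferInstance, hF, g, π, h⟩

/-- the homotopy `τ`. -/
theorem StabZero.tau {r : R} (h : StabZero r M) {K F : Type} [AddCommGroup K] [Module R K]
    [AddCommGroup F] [Module R F] {ι : K →ₗ[R] F} {π : F →ₗ[R] M} (hs : SES ι π) :
    ∃ (τ : F →ₗ[R] K) (g : M →ₗ[R] F), (∀ x, τ (ι x) = r • x) ∧ (∀ p, ι (τ p) = r • p - g (π p)) ∧
      (∀ x, π (g x) = r • x) := by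
  obtain ⟨g, hg⟩ := h.lift π hs.surj
  obtain ⟨τ, hτ⟩ := hs.lift (r • LinearMap.id - g ∘ₗ π) (fun a => by simp [hg])
  refine ⟨τ, g, fun x => ?_, fun p => ?_, hg⟩
  · apply hs.inj
    rw [hτ]
    simp [hs.comp_eq_zero]
  · rw [hτ]; simp

theorem StabZero.ker {r : R} (h : StabZero r M) {K F : Type} [AddCommGroup K] [Module R K]
    [AddCommGroup F] [Module R F] [hF : Module.Projective R F] {ι : K →ₗ[R] F} {π : F →ₗ[R] M}
    (hs : SES ι π) : StabZero r K := by
  obtain ⟨τ, g, h1, -, -⟩ := h.tau hs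
  exact ⟨F, inferInstance, inferInstance, hF, ι, τ, h1⟩

theorem StabZero.of_retract {r : R} {M' : Type} [AddCommGroup M'] [Module R M']
    (h : StabZero r M') (i : M →ₗ[R] M') (s : M' →ₗ[R] M) (his : ∀ x, s (i x) = x) :
    StabZero r M := by
  obtain ⟨F, _, _, hF, f, g, hfg⟩ := h
  refine ⟨F, inferInstance, inferInstance, hF, f ∘ₗ i, s ∘ₗ g, fun x => ?_⟩
  rw [LinearMap.comp_apply, LinearMap.comp_apply, hfg, map_smul, his]

theorem StabZero.equiv {r : R} {M' : Type} [AddCommGroup M'] [Module R M']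
    (h : StabZero r M) (e : M ≃ₗ[R] M') : StabZero r M' :=
  h.of_retract e.symm.toLinearMap e.toLinearMap (fun x => by simp)

theorem StabZero.prod {r : R} {M' : Type} [AddCommGroup M'] [Module R M']
    (h : StabZero r M) (h' : StabZero r M') : StabZero r (M × M') := by
  obtain ⟨F, _, _, hF, f, g, hfg⟩ := h
  obtain ⟨F', _, _, hF', f', g', hfg'⟩ := h'
  exact ⟨F × F', inferInstance, inferInstance, inferInstance, f.prodMap f', g.prodMap g',
    fun x => by simp only [LinearMap.prodMap_apply, hfg, hfg']; rfl⟩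

theorem StabZero.add {r s : R} (h : StabZero r M) (h' : StabZero s M) : StabZero (r + s) M := by
  obtain ⟨F, _, _, hF, f, g, hfg⟩ := h
  obtain ⟨F', _, _, hF', f', g', hfg'⟩ := h'
  exact ⟨F × F', inferInstance, inferInstance, inferInstance, f.prod f', g.coprod g',
    fun x => by simp [hfg, hfg', add_smul]⟩

theorem StabZero.smul {r : R} (s : R) (h : StabZero r M) : StabZero (s * r) M := by
  obtain ⟨F, _, _, hF, f, g, hfg⟩ := h
  exact ⟨F, inferInstance, inferInstance, hF, s • f, g, fun x => by simp [hfg, mul_smul]⟩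

theorem StabZero.of_smul_eq_zero {r : R} (h : ∀ x : M, r • x = 0) : StabZero r M :=
  ⟨R, inferInstance, inferInstance, inferInstance, 0, 0, fun x => by simp [h]⟩

theorem StabZero.of_projective (r : R) (F : Type) [AddCommGroup F] [Module R F]
    [hF : Module.Projective R F] : StabZero r F :=
  ⟨F, inferInstance, inferInstance, hF, LinearMap.id, r • LinearMap.id, fun x => by simp⟩

/-- the stable annihilator. -/
def stabAnn (R : Type) [CommRing R] (M : Type) [AddCommGroup M] [Module R M] : Ideal R where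
  carrier := {r | StabZero r M}
  add_mem' := fun h h' => StabZero.add h h'
  zero_mem' := StabZero.of_smul_eq_zero (fun x => by simp)
  smul_mem' := fun c x h => StabZero.smul c h

theorem mem_stabAnn {r : R} : r ∈ stabAnn R M ↔ StabZero r M := Iff.rfl

end StabZero

/-- bundled finitely generated projective modules -/
structure FP (R : Type) [CommRing R] where
  C : Type
  [ac : AddCommGroup C]
  [mo : Module R C]
  [fi : Module.Finite R C]
  [pr : Module.Projective R C]

attribute [instance] FP.ac FP.mo FP.fi FP.pr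

/-- bundled finitely generated modules -/
structure FM (R : Type) [CommRing R] where
  C : Type
  [ac : AddCommGroup C]
  [mo : Module R C]
  [fi : Module.Finite R C]

attribute [instance] FM.ac FM.mo FM.fi

section StabEq

variable {R : Type} [CommRing R]

/-- stable equivalence -/
def StabEq (R : Type) [CommRing R] (M N : Type) [AddCommGroup M] [Module R M] [AddCommGroup N]
    [Module R N] : Prop :=
  ∃ (P Q : FP R), Nonempty ((M × P.C) ≃ₗ[R] (N × Q.C))

variable {M N L : Type} [AddCommGroup M] [Module R M] [AddCommGroup N] [Module R N]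
    [AddCommGroup L] [Module R L]

theorem StabEq.symm (h : StabEq R M N) : StabEq R N M := by
  obtain ⟨P, Q, ⟨e⟩⟩ := h
  exact ⟨Q, P, ⟨e.symm⟩⟩

theorem StabEq.of_equiv (e : M ≃ₗ[R] N) : StabEq R M N :=
  ⟨⟨R⟩, ⟨R⟩, ⟨e.prodCongr (LinearEquiv.refl R R)⟩⟩

theorem StabEq.refl (M : Type) [AddCommGroup M] [Module R M] : StabEq R M M :=
  StabEq.of_equiv (LinearEquiv.refl R M)

theorem StabEq.trans (h : StabEq R M N) (h' : StabEq R N L) : StabEq R M L := by
  obtain ⟨P, Q, ⟨e⟩⟩ := h
  obtain ⟨P', Q', ⟨e'⟩⟩ := h'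
  refine ⟨⟨P.C × P'.C⟩, ⟨Q'.C × Q.C⟩, ⟨?_⟩⟩
  -- M × (P × P') ≃ (M × P) × P' ≃ (N × Q) × P' ≃ (N × P') × Q ≃ (L × Q') × Q ≃ L × (Q' × Q)
  have e1 : (M × (P.C × P'.C)) ≃ₗ[R] ((M × P.C) × P'.C) := (LinearEquiv.prodAssoc R M P.C P'.C).symm
  have e2 : ((M × P.C) × P'.C) ≃ₗ[R] ((N × Q.C) × P'.C) := e.prodCongr (LinearEquiv.refl R _)
  have e3 : ((N × Q.C) × P'.C) ≃ₗ[R] ((N × P'.C) × Q.C) :=
    { toFun := fun x => ((x.1.1, x.2), x.1.2)
      invFun := fun x => ((x.1.1, x.2), x.1.2)
      map_add' := fun _ _ => rfl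
      map_smul' := fun _ _ => rfl
      left_inv := fun _ => rfl
      right_inv := fun _ => rfl }
  have e4 : ((N × P'.C) × Q.C) ≃ₗ[R] ((L × Q'.C) × Q.C) := e'.prodCongr (LinearEquiv.refl R _)
  exact e1.trans (e2.trans (e3.trans (e4.trans (LinearEquiv.prodAssoc R L Q'.C Q.C))))

/-- `(A × B) × (C × D) ≃ (A × C) × (B × D)`. -/
def prodSwap4 (A B C D : Type) [AddCommGroup A] [Module R A] [AddCommGroup B] [Module R B]
    [AddCommGroup C] [Module R C] [AddCommGroup D] [Module R D] :
    ((A × B) × (C × D)) ≃ₗ[R] ((A × C) × (B × D)) :=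
  { toFun := fun x => ((x.1.1, x.2.1), (x.1.2, x.2.2))
    invFun := fun x => ((x.1.1, x.2.1), (x.1.2, x.2.2))
    map_add' := fun _ _ => rfl
    map_smul' := fun _ _ => rfl
    left_inv := fun _ => rfl
    right_inv := fun _ => rfl }

theorem StabEq.prod {M' N' : Type} [AddCommGroup M'] [Module R M'] [AddCommGroup N'] [Module R N']
    (h : StabEq R M N) (h' : StabEq R M' N') : StabEq R (M × M') (N × N') := by
  obtain ⟨P, Q, ⟨e⟩⟩ := h
  obtain ⟨P', Q', ⟨e'⟩⟩ := h'
  refine ⟨⟨P.C × P'.C⟩, ⟨Q.C × Q'.C⟩, ⟨?_⟩⟩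
  exact (prodSwap4 _ _ _ _).trans ((e.prodCongr e').trans (prodSwap4 _ _ _ _))

theorem StabEq.prod_proj (P : Type) [AddCommGroup P] [Module R P] [Module.Finite R P]
    [Module.Projective R P] : StabEq R (M × P) M := by
  refine ⟨⟨R⟩, ⟨P × R⟩, ⟨LinearEquiv.prodAssoc R M P R⟩⟩

theorem StabEq.of_subsingleton [Subsingleton M] [Subsingleton N] : StabEq R M N :=
  StabEq.of_equiv
    { toFun := fun _ => 0
      invFun := fun _ => 0
      map_add' := fun _ _ => by simp
      map_smul' := fun _ _ => by simp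
      left_inv := fun _ => Subsingleton.elim _ _
      right_inv := fun _ => Subsingleton.elim _ _ }

/-- Schanuel's lemma -/
theorem schanuel {K F K' F' : Type} [AddCommGroup K] [Module R K] [AddCommGroup F] [Module R F]
    [AddCommGroup K'] [Module R K'] [AddCommGroup F'] [Module R F']
    [Module.Projective R F] [Module.Projective R F']
    {ι : K →ₗ[R] F} {π : F →ₗ[R] M} (h : SES ι π) {ι' : K' →ₗ[R] F'} {π' : F' →ₗ[R] M}
    (h' : SES ι' π') : Nonempty ((K × F') ≃ₗ[R] (K' × F)) := by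
  obtain ⟨u, hu⟩ := Module.projective_lifting_property π' π h'.surj
  obtain ⟨v, hv⟩ := Module.projective_lifting_property π π' h.surj
  have hu' : ∀ x, π' (u x) = π x := fun x => by simpa using LinearMap.congr_fun hu x
  have hv' : ∀ x, π (v x) = π' x := fun x => by simpa using LinearMap.congr_fun hv x
  let Z : Submodule R (F × F') := LinearMap.ker (π.coprod π')
  -- `K × F' ≃ Z`
  let f : (K × F') →ₗ[R] (F × F') :=
    { toFun := fun x => (ι x.1 - v x.2, x.2)
      map_add' := fun x y => by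
        simp only [Prod.fst_add, Prod.snd_add, map_add, Prod.mk_add_mk, Prod.mk.injEq, and_true]
        abel
      map_smul' := fun r x => by
        simp [smul_sub] }
  let f' : (K' × F) →ₗ[R] (F × F') :=
    { toFun := fun x => (x.2, ι' x.1 - u x.2)
      map_add' := fun x y => by
        simp only [Prod.fst_add, Prod.snd_add, map_add, Prod.mk_add_mk, Prod.mk.injEq, true_and]
        abel
      map_smul' := fun r x => by
        simp [smul_sub] }
  have hf : Function.Injective f := by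
    rintro ⟨a, b⟩ ⟨c, d⟩ hab
    simp only [f, LinearMap.coe_mk, AddHom.coe_mk, Prod.mk.injEq] at hab
    obtain ⟨h1, h2⟩ := hab
    subst h2
    exact Prod.ext (h.inj (sub_left_injective h1)) rfl
  have hf' : Function.Injective f' := by
    rintro ⟨a, b⟩ ⟨c, d⟩ hab
    simp only [f', LinearMap.coe_mk, AddHom.coe_mk, Prod.mk.injEq] at hab
    obtain ⟨h1, h2⟩ := hab
    subst h1
    exact Prod.ext (h'.inj (sub_left_injective h2)) rfl
  have hr : LinearMap.range f = Z := by
    apply le_antisymm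
    · rintro _ ⟨x, rfl⟩
      simp [Z, f, h.comp_eq_zero, hv']
    · rintro ⟨p, p'⟩ hp
      simp only [Z, LinearMap.mem_ker, LinearMap.coprod_apply] at hp
      obtain ⟨k, hk⟩ := h.exists_of_eq_zero (x := p + v p') (by rw [map_add, hv', hp])
      exact ⟨(k, p'), by simp [f, hk]⟩
  have hr' : LinearMap.range f' = Z := by
    apply le_antisymm
    · rintro _ ⟨x, rfl⟩
      simp [Z, f', h'.comp_eq_zero, hu']
    · rintro ⟨p, p'⟩ hp
      simp only [Z, LinearMap.mem_ker, LinearMap.coprod_apply] at hp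
      obtain ⟨k, hk⟩ := h'.exists_of_eq_zero (x := p' + u p) (by
        rw [map_add, hu', add_comm, hp])
      exact ⟨(k, p), by simp [f', hk]⟩
  exact ⟨(LinearEquiv.ofInjective f hf).trans
    ((LinearEquiv.ofEq _ _ (hr.trans hr'.symm)).trans (LinearEquiv.ofInjective f' hf').symm)⟩

/-- kernels of covers of stably equivalent modules are stably equivalent. -/
theorem StabEq.ker (hMN : StabEq R M N) {K F K' F' : Type} [AddCommGroup K] [Module R K]
    [AddCommGroup F] [Module R F]
    [AddCommGroup K'] [Module R K'] [AddCommGroup F'] [Module R F']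
    [Module.Projective R F] [Module.Projective R F'] [Module.Finite R F] [Module.Finite R F']
    {ι : K →ₗ[R] F} {π : F →ₗ[R] M} (h : SES ι π) {ι' : K' →ₗ[R] F'} {π' : F' →ₗ[R] N}
    (h' : SES ι' π') : StabEq R K K' := by
  obtain ⟨P, Q, ⟨e⟩⟩ := hMN
  have s1 := (h.prod (SES.zero_id (R := R) (F := P.C))).comp_equiv e
  have s2 := h'.prod (SES.zero_id (R := R) (F := Q.C))
  obtain ⟨e2⟩ := schanuel s1 s2
  have t : ∀ (A B : Type) [AddCommGroup A] [Module R A] [AddCommGroup B] [Module R B],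
      Nonempty (((A × PUnit) × B) ≃ₗ[R] (A × B)) := fun A B _ _ _ _ =>
    ⟨{ toFun := fun x => (x.1.1, x.2)
       invFun := fun x => ((x.1, 0), x.2)
       map_add' := fun _ _ => rfl
       map_smul' := fun _ _ => rfl
       left_inv := fun _ => rfl
       right_inv := fun _ => rfl }⟩
  obtain ⟨t1⟩ := t K (F' × Q.C)
  obtain ⟨t2⟩ := t K' (F × P.C)
  exact ⟨⟨F' × Q.C⟩, ⟨F × P.C⟩, ⟨t1.symm.trans (e2.trans t2)⟩⟩

theorem StabEq.EZ {N₀ : Type} [AddCommGroup N₀] [Module R N₀] {S : Submodule R N₀}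
    (h : StabEq R M N) (hM : EZ S M) : EA7.EZ S N := by
  obtain ⟨P, Q, ⟨e⟩⟩ := h
  exact ((hM.prod (EZ.proj S P.C)).equiv e).fst

theorem StabEq.stabZero {r : R} (h : StabEq R M N) (hM : StabZero r M) : StabZero r N := by
  obtain ⟨P, Q, ⟨e⟩⟩ := h
  exact ((hM.prod (StabZero.of_projective r P.C)).equiv e).of_retract
    (LinearMap.inl R N Q.C) (LinearMap.fst R N Q.C) (fun _ => rfl)

end StabEq

end EA7
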