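import Pool.Agent.Lib.MP_ea7a64_al_h50.Stab

/-!
# Minimal covers and syzygies
-/

set_option autoImplicit false
set_option linter.unusedSectionVars false

open IsLocalRing

namespace EA7

section Cover

variable {R : Type} [CommRing R] [IsLocalRing R]

theorem exists_min_cover_aux (M : Type) [AddCommGroup M] [Module R M] (n : ℕ) :
    ∀ (ι : Type) [Fintype ι], Fintype.card ι = n → ∀ π : (ι → R) →ₗ[R] M, Function.Surjective π →
      ∃ (κ : Type) (_ : Fintype κ) (π' : (κ → R) →ₗ[R] M), Function.Surjective π' ∧
        ∀ x, π' x = 0 → ∀ i, x i ∈ maximalIdeal R := by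
  classical
  induction n using Nat.strong_induction_on with
  | _ n ih =>
    intro ι _ hn π hπ
    by_cases hmin : ∀ x, π x = 0 → ∀ i, x i ∈ maximalIdeal R
    · exact ⟨ι, inferInstance, π, hπ, hmin⟩
    · push Not at hmin
      obtain ⟨x, hx, i, hi⟩ := hmin
      have hu : IsUnit (x i) := by
        by_contra h
        exact hi ((mem_maximalIdeal _).2 h)
      obtain ⟨u, hu⟩ := hu
      let E : ({j : ι // j ≠ i} → R) →ₗ[R] (ι → R) :=
        { toFun := fun z j => if h : j = i then 0 else z ⟨j, h⟩
          map_add' := fun a b => by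
            funext j
            by_cases h : j = i
            · simp [h]
            · simp [h]
          map_smul' := fun r a => by
            funext j
            by_cases h : j = i
            · simp [h]
            · simp [h] }
      refine ih (Fintype.card {j : ι // j ≠ i}) ?_ {j : ι // j ≠ i} rfl (π ∘ₗ E) ?_
      · rw [← hn]
        exact Fintype.card_subtype_lt (x := i) (by simp)
      · intro m
        obtain ⟨y, rfl⟩ := hπ m
        refine ⟨fun j => (y - (y i * (↑u⁻¹ : R)) • x) j, ?_⟩
        have h2 : E (fun j => (y - (y i * (↑u⁻¹ : R)) • x) j) = y - (y i * (↑u⁻¹ : R)) • x := by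
          funext j
          by_cases h : j = i
          · subst h
            simp [E, ← hu]
          · simp [E, h]
        rw [LinearMap.comp_apply, h2, map_sub, map_smul, hx]
        simp

theorem exists_min_cover (M : Type) [AddCommGroup M] [Module R M] [Module.Finite R M] :
    ∃ (n : ℕ) (π : (Fin n → R) →ₗ[R] M), Function.Surjective π ∧
        ∀ x, π x = 0 → ∀ i, x i ∈ maximalIdeal R := by
  obtain ⟨n, f, hf⟩ := Module.Finite.exists_fin' R M
  obtain ⟨κ, _, π, hπ, hmin⟩ := exists_min_cover_aux M n (Fin n) (by simp) f hf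
  let e : (Fin (Fintype.card κ) → R) ≃ₗ[R] (κ → R) :=
    LinearEquiv.funCongrLeft R R (Fintype.equivFin κ)
  refine ⟨Fintype.card κ, π ∘ₗ e.toLinearMap, hπ.comp e.surjective, fun x hx i => ?_⟩
  have := hmin (e x) hx ((Fintype.equivFin κ).symm i)
  simpa [e, LinearEquiv.funCongrLeft_apply, LinearMap.funLeft_apply] using this

end Cover

section Syz

variable {R : Type} [CommRing R] [IsNoetherianRing R] [IsLocalRing R]

/-- number of generators of the chosen minimal cover -/
noncomputable def rk (M : FM R) : ℕ := (exists_min_cover (R := R) M.C).choose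

/-- chosen minimal cover -/
noncomputable def cov (M : FM R) : (Fin (rk M) → R) →ₗ[R] M.C :=
  (exists_min_cover (R := R) M.C).choose_spec.choose

theorem cov_surj (M : FM R) : Function.Surjective (cov M) :=
  (exists_min_cover (R := R) M.C).choose_spec.choose_spec.1

theorem cov_min (M : FM R) (x : Fin (rk M) → R) (hx : cov M x = 0) (i : Fin (rk M)) :
    x i ∈ maximalIdeal R :=
  (exists_min_cover (R := R) M.C).choose_spec.choose_spec.2 x hx i

/-- first syzygy -/
noncomputable def Om (M : FM R) : FM R := ⟨LinearMap.ker (cov M)⟩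

/-- `i`-th syzygy -/
noncomputable def Sy (M : FM R) : ℕ → FM R
  | 0 => M
  | i + 1 => Om (Sy M i)

@[simp] theorem Sy_zero (M : FM R) : Sy M 0 = M := rfl
theorem Sy_succ (M : FM R) (i : ℕ) : Sy M (i + 1) = Om (Sy M i) := rfl

theorem Sy_succ' (M : FM R) (i : ℕ) : Sy M (i + 1) = Sy (Om M) i := by
  induction i with
  | zero => rfl
  | succ i ih => rw [Sy_succ, ih, ← Sy_succ]

/-- inclusion of the syzygy -/
noncomputable def inc (M : FM R) : (Om M).C →ₗ[R] (Fin (rk M) → R) := (LinearMap.ker (cov M)).subtype

theorem ses (M : FM R) : SES (inc M) (cov M) := SES.of_surj _ (cov_surj M)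

theorem inc_mem (M : FM R) (x : (Om M).C) (i : Fin (rk M)) : inc M x i ∈ maximalIdeal R :=
  cov_min M _ ((ses M).comp_eq_zero x) i

theorem StabEq.om {M N : FM R} (h : StabEq R M.C N.C) : StabEq R (Om M).C (Om N).C :=
  h.ker (ses M) (ses N)

theorem StabEq.sy {M N : FM R} (h : StabEq R M.C N.C) (i : ℕ) :
    StabEq R (Sy M i).C (Sy N i).C := by
  induction i with
  | zero => exact h
  | succ i ih => exact ih.om

/-- `Om M` is stably the kernel of any cover of `M`. -/
theorem stabEq_om_of_ses (M : FM R) {K F : Type} [AddCommGroup K] [Module R K]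
    [AddCommGroup F] [Module R F] [Module.Projective R F] [Module.Finite R F]
    {ι : K →ₗ[R] F} {π : F →ₗ[R] M.C} (h : SES ι π) : StabEq R (Om M).C K :=
  (StabEq.refl M.C).ker (ses M) h

/-- product of bundled modules -/
def FM.prod (M N : FM R) : FM R := ⟨M.C × N.C⟩

theorem stabEq_om_prod (M N : FM R) : StabEq R (Om (M.prod N)).C ((Om M).C × (Om N).C) :=
  stabEq_om_of_ses (M.prod N) ((ses M).prod (ses N))

theorem stabEq_sy_prod (M N : FM R) (i : ℕ) :
    StabEq R (Sy (M.prod N) i).C ((Sy M i).C × (Sy N i).C) := by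
  induction i with
  | zero => exact StabEq.refl _
  | succ i ih =>
    have h1 : StabEq R (Om (Sy (M.prod N) i)).C (Om ((Sy M i).prod (Sy N i))).C :=
      StabEq.om ih
    exact h1.trans (stabEq_om_prod _ _)

/-- finite powers -/
def FM.pow (M : FM R) : ℕ → FM R
  | 0 => ⟨PUnit⟩
  | n + 1 => M.prod (FM.pow M n)

theorem om_punit_stab : StabEq R (Om (⟨PUnit⟩ : FM R)).C PUnit := by
  have h : SES (0 : PUnit →ₗ[R] PUnit) (LinearMap.id : PUnit →ₗ[R] PUnit) := SES.zero_id
  exact stabEq_om_of_ses (⟨PUnit⟩ : FM R) h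

theorem stabEq_om_pow (M : FM R) (n : ℕ) : StabEq R (Om (M.pow n)).C ((Om M).pow n).C := by
  induction n with
  | zero => exact om_punit_stab
  | succ n ih =>
    exact (stabEq_om_prod M (M.pow n)).trans ((StabEq.refl _).prod ih)

theorem stabEq_sy_pow (M : FM R) (n i : ℕ) : StabEq R (Sy (M.pow n) i).C ((Sy M i).pow n).C := by
  induction i with
  | zero => exact StabEq.refl _
  | succ i ih => exact (StabEq.om ih).trans (stabEq_om_pow _ _)

theorem StabZero.om {r : R} {M : FM R} (h : StabZero r M.C) : StabZero r (Om M).C :=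
  h.ker (ses M)

theorem StabZero.sy {r : R} {M : FM R} (h : StabZero r M.C) (i : ℕ) : StabZero r (Sy M i).C := by
  induction i with
  | zero => exact h
  | succ i ih => exact ih.om

end Syz

end EA7
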