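import Pool.Agent.Lib.MP_ea7a64_al_h50.Vdef

/-!
# Lemma A, and the statements T1, T2, T3 about the syzygies of the residue field
-/

set_option autoImplicit false
set_option linter.unusedSectionVars false

open IsLocalRing

namespace EA7

section A

variable {R : Type} [CommRing R] [IsNoetherianRing R] [IsLocalRing R]

theorem smul_kk (y : R) (hy : y ∈ maximalIdeal R) (v : (kk R).C) : y • v = 0 := by
  have h0 : ∀ v : ResidueField R, y • v = 0 := by
    intro v
    have h1 : algebraMap R (ResidueField R) y = 0 := (residue_eq_zero_iff y).2 hy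
    rw [Algebra.smul_def, h1, zero_mul]
  exact h0 v

theorem Ac_kk : Ac R 0 (kk R).C := by
  intro I hI f hf
  refine ⟨Fin.elim0, fun i => i.elim0, ?_⟩
  refine le_trans ?_ le_sup_left
  intro y hy
  obtain ⟨v, hv⟩ := hf (Ideal.Quotient.mk I 1)
  have h1 : f (y • v) = y • Ideal.Quotient.mk I 1 := by rw [map_smul, hv]
  rw [smul_kk y hy, map_zero] at h1
  have h2 : y • Ideal.Quotient.mk I 1 = Ideal.Quotient.mk I y := by
    rw [Algebra.smul_def]
    simp
  rw [h2] at h1
  exact Ideal.Quotient.eq_zero_iff_mem.1 h1.symm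

theorem Ac_step (M : FM R) (j : ℕ) (hst : ∀ y ∈ maximalIdeal R, StabZero y M.C)
    (hA : Ac R j M.C) : Ac R (j + 1) (Om M).C := by
  classical
  intro I hI f hf
  by_cases hle : maximalIdeal R ≤ I
  · exact ⟨fun _ => 0, fun _ => Submodule.zero_mem _, hle.trans le_sup_left⟩
  · obtain ⟨y, hy, hyI⟩ := Set.not_subset.1 hle
    obtain ⟨τ, g, hτ, -, -⟩ := (hst y hy).tau (ses M)
    obtain ⟨κ, hκ⟩ := hf (Ideal.Quotient.mk I 1)
    have hex : ∃ i, ∃ a, a ∉ maximalIdeal R ∧ f (τ (Pi.single i 1)) = Ideal.Quotient.mk I a := by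
      by_contra hcon
      push Not at hcon
      choose a ha using fun i => Ideal.Quotient.mk_surjective (I := I) (f (τ (Pi.single i 1)))
      have ham : ∀ i, a i ∈ maximalIdeal R := by
        intro i
        by_contra h
        exact hcon i (a i) h (ha i).symm
      have h1 : f (τ (inc M κ)) = Ideal.Quotient.mk I y := by
        rw [hτ, map_smul, hκ, Algebra.smul_def]
        simp
      have h2 : inc M κ = ∑ i, (inc M κ i) • (Pi.single i (1 : R) : Fin (rk M) → R) := by
        funext i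
        simp [Finset.sum_apply, Pi.single_apply]
      have h3 : f (τ (inc M κ)) = Ideal.Quotient.mk I (∑ i, inc M κ i * a i) := by
        conv_lhs => rw [h2]
        rw [map_sum, map_sum, map_sum]
        refine Finset.sum_congr rfl (fun i _ => ?_)
        rw [map_smul, map_smul, ← ha i, Algebra.smul_def, map_mul]
        rfl
      rw [h1] at h3
      have h4 := Ideal.Quotient.eq.1 h3
      have h5 : (∑ i, inc M κ i * a i) ∈ I := by
        apply hI
        rw [pow_two]
        exact Submodule.sum_mem _ (fun i _ => Ideal.mul_mem_mul (inc_mem M κ i) (ham i))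
      exact hyI (by simpa using I.add_mem h4 h5)
    obtain ⟨i, a, ha, hai⟩ := hex
    have hu : IsUnit a := by
      by_contra h
      exact ha ((mem_maximalIdeal _).2 h)
    let J : Ideal R := I ⊔ Ideal.span {y}
    have hIJ : I ≤ J := le_sup_left
    let fac : (R ⧸ I) →ₗ[R] (R ⧸ J) := Submodule.mapQ I J LinearMap.id hIJ
    have hfac : ∀ r, fac (Ideal.Quotient.mk I r) = Ideal.Quotient.mk J r := fun r => rfl
    obtain ⟨f', hf'⟩ := (ses M).desc (fac ∘ₗ f ∘ₗ τ) (fun k => by
      rw [LinearMap.comp_apply, LinearMap.comp_apply, hτ, map_smul, map_smul]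
      obtain ⟨r, hr⟩ := Ideal.Quotient.mk_surjective (I := I) (f k)
      rw [← hr, hfac, Algebra.smul_def]
      change Ideal.Quotient.mk J y * Ideal.Quotient.mk J r = 0
      rw [← map_mul]
      apply Ideal.Quotient.eq_zero_iff_mem.2
      exact Ideal.mul_mem_right _ _ (Ideal.mem_sup_right (Ideal.mem_span_singleton_self y)))
    have hsurj : Function.Surjective f' := by
      intro z
      obtain ⟨r, hr⟩ := Ideal.Quotient.mk_surjective (I := J) z
      obtain ⟨u, hu⟩ := hu
      refine ⟨(r * (↑u⁻¹ : R)) • cov M (Pi.single i 1), ?_⟩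
      rw [map_smul, hf', LinearMap.comp_apply, LinearMap.comp_apply, hai, hfac, ← hr,
        Algebra.smul_def]
      change Ideal.Quotient.mk J (r * (↑u⁻¹ : R)) * Ideal.Quotient.mk J a = _
      rw [← map_mul, ← hu, mul_assoc, Units.inv_mul, mul_one]
    obtain ⟨ys, hys, hle'⟩ := hA J (hI.trans hIJ) f' hsurj
    refine ⟨Fin.cons y ys, ?_, ?_⟩
    · intro i
      refine Fin.cases ?_ ?_ i
      · simpa using hy
      · intro i; simpa using hys i
    · rw [Fin.range_cons, Ideal.span_insert, ← sup_assoc]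
      exact hle'

theorem stabZero_sy (y : R) (hy : y ∈ maximalIdeal R) (i : ℕ) : StabZero y (Sy (kk R) i).C :=
  (StabZero.of_smul_eq_zero (fun v => smul_kk y hy v)).sy i

theorem Ac_sy (i : ℕ) : Ac R i (Sy (kk R) i).C := by
  induction i with
  | zero => exact Ac_kk
  | succ i ih => exact Ac_step _ _ (fun y hy => stabZero_sy y hy i) ih

theorem NG.nakayama {n : ℕ} (h : NG R n) (ys : Fin n → R) (hys : ∀ i, ys i ∈ maximalIdeal R) :
    ¬ maximalIdeal R ≤ maximalIdeal R ^ 2 ⊔ Ideal.span (Set.range ys) := by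
  intro hle
  apply h ys hys
  refine Submodule.le_of_le_smul_of_le_jacobson_bot (I := maximalIdeal R)
    (IsNoetherian.noetherian _) ?_ ?_
  · rw [IsLocalRing.jacobson_eq_maximalIdeal _ bot_ne_top]
  · rw [sup_comm, pow_two] at hle
    exact hle

theorem NG.mono {n n' : ℕ} (h : NG R n) (hn : n' ≤ n) : NG R n' := by
  intro ys hys hle
  refine h (fun i => if hi : (i : ℕ) < n' then ys ⟨i, hi⟩ else 0) ?_ ?_
  · intro i
    by_cases hi : (i : ℕ) < n'
    · simp [hi, hys]
    · simp [hi]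
  · refine hle.trans (Ideal.span_mono ?_)
    rintro _ ⟨i, rfl⟩
    exact ⟨⟨i, i.2.trans_le hn⟩, by simp⟩

theorem Ac.not_surj {j : ℕ} {M : Type} [AddCommGroup M] [Module R M] (hA : Ac R j M)
    (h : NG R j) : ¬ ∃ f : M →ₗ[R] R ⧸ (maximalIdeal R ^ 2), Function.Surjective f := by
  rintro ⟨f, hf⟩
  obtain ⟨ys, hys, hle⟩ := hA _ le_rfl f hf
  exact h.nakayama ys hys hle

/-- T1 -/
theorem T1 (C : FM R) (h : EZ (⊥ : Submodule R R) C.C)
    (hns : ¬ ∃ f : C.C →ₗ[R] R ⧸ (maximalIdeal R ^ 2), Function.Surjective f) :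
    Pc R (Om C).C := by
  classical
  intro φ hφ
  obtain ⟨b, hb⟩ := h.exact (ses C) φ
  have hb' : ∀ x, φ x = b (inc C x) := fun x => by
    have := hb x
    rwa [Submodule.mem_bot, sub_eq_zero] at this
  have hbm : ∀ p, b p ∈ maximalIdeal R := by
    intro p
    by_contra hp
    have hu : IsUnit (b p) := by
      by_contra h
      exact hp ((mem_maximalIdeal _).2 h)
    obtain ⟨u, hu⟩ := hu
    apply hns
    obtain ⟨f', hf'⟩ := (ses C).desc ((Submodule.mkQ (maximalIdeal R ^ 2)) ∘ₗ b) (fun k => by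
      rw [LinearMap.comp_apply, ← hb']
      exact (Submodule.Quotient.mk_eq_zero _).2 (hφ k))
    refine ⟨f', fun z => ?_⟩
    obtain ⟨r, hr⟩ := Submodule.mkQ_surjective _ z
    refine ⟨(r * (↑u⁻¹ : R)) • cov C p, ?_⟩
    rw [map_smul, hf', LinearMap.comp_apply, ← map_smul, ← hr, ← hu]
    simp [mul_assoc]
  have h1 : b ∈ maximalIdeal R • (⊤ : Submodule R ((Fin (rk C) → R) →ₗ[R] R)) :=
    mem_smul_top_of_proj _ b hbm
  have h2 : φ = b ∘ₗ inc C := by
    ext x
    exact hb' x
  rw [h2]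
  exact mem_smul_comp h1 _

/-- functionals in `m • Hom(S,R)` extend to the cover. -/
theorem extends_of_mem (M : FM R) (hst : ∀ y ∈ maximalIdeal R, StabZero y M.C)
    (θ : (Om M).C →ₗ[R] R) (hθ : θ ∈ maximalIdeal R • (⊤ : Submodule R ((Om M).C →ₗ[R] R))) :
    ∃ b : (Fin (rk M) → R) →ₗ[R] R, ∀ x, θ x = b (inc M x) := by
  induction hθ using Submodule.smul_induction_on' with
  | smul r hr n hn =>
    obtain ⟨τ, g, hτ, -, -⟩ := (hst r hr).tau (ses M)
    exact ⟨n ∘ₗ τ, fun x => by rw [LinearMap.comp_apply, hτ, map_smul]; rfl⟩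
  | add x hx y hy h1 h2 =>
    obtain ⟨b, hb⟩ := h1
    obtain ⟨b', hb'⟩ := h2
    exact ⟨b + b', fun z => by rw [LinearMap.add_apply, LinearMap.add_apply, hb, hb']⟩

/-- T2 -/
theorem T2 (d' : ℕ) (hK2 : EZ (maximalIdeal R ^ 2 : Submodule R R) (Sy (kk R) d').C)
    (hne : ¬ EZ (⊥ : Submodule R R) (Sy (kk R) d').C) : ¬ Pc R (Sy (kk R) (d' + 1)).C := by
  intro hP
  apply hne
  refine EZ.of_exact (ses (Sy (kk R) d')) (fun φ => ?_)
  obtain ⟨b, hb⟩ := hK2.exact (ses (Sy (kk R) d')) φ
  have h1 := hP (φ - b ∘ₗ inc (Sy (kk R) d')) (fun x => hb x)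
  obtain ⟨b', hb'⟩ := extends_of_mem (Sy (kk R) d') (fun y hy => stabZero_sy y hy d') _ h1
  refine ⟨b + b', fun x => ?_⟩
  have := hb' x
  rw [LinearMap.sub_apply, LinearMap.comp_apply] at this
  rw [Submodule.mem_bot, LinearMap.add_apply, ← this]
  abel

theorem finite_hom (M : Type) [AddCommGroup M] [Module R M] [Module.Finite R M] :
    Module.Finite R (M →ₗ[R] R) := by
  obtain ⟨n, f, hf⟩ := Module.Finite.exists_fin' R M
  refine Module.Finite.of_injective (LinearMap.lcomp R R f) ?_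
  intro a b hab
  ext x
  obtain ⟨y, rfl⟩ := hf x
  exact LinearMap.congr_fun hab y

/-- T3 -/
theorem T3 (d' : ℕ) (hK2 : EZ (maximalIdeal R ^ 2 : Submodule R R) (Sy (kk R) d').C)
    (hP : Pc R (Sy (kk R) d').C) : Qc R (Sy (kk R) (d' + 1)).C := by
  classical
  set M := Sy (kk R) d' with hM
  change Qc R (Om M).C
  have hst : ∀ y ∈ maximalIdeal R, StabZero y M.C := fun y hy => stabZero_sy y hy d'
  have := finite_hom (R := R) (Om M).C
  obtain ⟨r, f, hf⟩ := Module.Finite.exists_fin (R := R) (M := (Om M).C →ₗ[R] R)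
  choose b hb using fun i : Fin r => hK2.exact (ses M) (f i)
  let θ : Fin r → ((Om M).C →ₗ[R] R) := fun i => f i - b i ∘ₗ inc M
  have hθ : ∀ i x, θ i x ∈ maximalIdeal R ^ 2 := fun i x => hb i x
  let H := Fin (rk M) → R
  let G := H × (Fin r → R)
  let j : (Om M).C →ₗ[R] G := (inc M).prod (LinearMap.pi θ)
  have hj : ∀ s, j s = (inc M s, fun i => θ i s) := fun s => rfl
  let pH : G →ₗ[R] H := LinearMap.fst R H (Fin r → R)
  have hpH : ∀ h v, pH (h, v) = h := fun _ _ => rfl
  let pV : Fin r → (G →ₗ[R] R) := fun i => LinearMap.proj i ∘ₗ LinearMap.snd R H (Fin r → R)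
  have hpV : ∀ i h v, pV i (h, v) = v i := fun _ _ _ => rfl
  let q : G →ₗ[R] (G ⧸ LinearMap.range j) := Submodule.mkQ _
  have hs : SES j q := by
    refine ⟨?_, Submodule.mkQ_surjective _, ?_⟩
    · intro a c hac
      rw [hj, hj, Prod.mk.injEq] at hac
      exact (ses M).inj hac.1
    · exact LinearMap.exact_map_mkQ_range j
  refine ⟨⟨G⟩, ⟨G ⧸ LinearMap.range j⟩, j, q, hs, ?_, ?_⟩
  · intro φ
    have hφ : φ ∈ Submodule.span R (Set.range f) := by rw [hf]; trivial
    obtain ⟨c, hc⟩ := (Submodule.mem_span_range_iff_exists_fun R).1 hφ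
    refine ⟨∑ i, c i • (b i ∘ₗ pH + pV i), fun x => ?_⟩
    rw [hj, ← hc]
    simp only [LinearMap.sum_apply, LinearMap.smul_apply]
    refine Finset.sum_congr rfl (fun i _ => ?_)
    rw [LinearMap.add_apply, LinearMap.comp_apply, hpH, hpV]
    congr 1
    simp [θ]
  · intro φ hφ
    -- the map `C → Sy kk d'`
    obtain ⟨ε, hε⟩ := hs.desc (cov M ∘ₗ pH) (fun k => by
      rw [hj]
      exact (ses M).comp_eq_zero k)
    -- correction functionals
    have hcor : ∀ (i : Fin r) (c : R), c ∈ maximalIdeal R ^ 2 →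
        ∃ (Ψ : (G ⧸ LinearMap.range j) →ₗ[R] R) (β : H →ₗ[R] R),
          Ψ ∈ maximalIdeal R • (⊤ : Submodule R ((G ⧸ LinearMap.range j) →ₗ[R] R)) ∧
          (∀ h, β h ∈ maximalIdeal R ^ 2) ∧ ∀ h v, Ψ (q (h, v)) = β h + c * v i := by
      intro i c hc
      rw [pow_two] at hc
      induction hc using Submodule.mul_induction_on' with
      | mem_mul_mem a ha y hy =>
        obtain ⟨τ, g, hτ, -, -⟩ := (hst y hy).tau (ses M)
        obtain ⟨ψ, hψ⟩ := hs.desc (-(θ i ∘ₗ τ ∘ₗ pH) + y • pV i) (fun k => by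
          rw [hj, LinearMap.add_apply, LinearMap.neg_apply, LinearMap.comp_apply,
            LinearMap.comp_apply, LinearMap.smul_apply, hpH, hpV, hτ, map_smul]
          simp)
        refine ⟨a • ψ, -(a • (θ i ∘ₗ τ)), Submodule.smul_mem_smul ha trivial, fun h => ?_,
          fun h v => ?_⟩
        · simp only [LinearMap.neg_apply, LinearMap.smul_apply, LinearMap.comp_apply,
            smul_eq_mul]
          exact neg_mem (Ideal.mul_mem_left _ _ (hθ i _))
        · rw [LinearMap.smul_apply, hψ, LinearMap.add_apply, LinearMap.neg_apply,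
            LinearMap.comp_apply, LinearMap.comp_apply, LinearMap.smul_apply, hpH, hpV,
            LinearMap.neg_apply, LinearMap.smul_apply, LinearMap.comp_apply]
          simp only [smul_eq_mul]
          ring
      | add x hx y hy h1 h2 =>
        obtain ⟨Ψ1, β1, m1, v1, e1⟩ := h1
        obtain ⟨Ψ2, β2, m2, v2, e2⟩ := h2
        refine ⟨Ψ1 + Ψ2, β1 + β2, Submodule.add_mem _ m1 m2,
          fun h => Ideal.add_mem _ (v1 h) (v2 h), fun h v => ?_⟩
        rw [LinearMap.add_apply, LinearMap.add_apply, e1, e2]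
        ring
    have hcoef : ∀ i : Fin r, φ (q (0, Pi.single i 1)) ∈ maximalIdeal R ^ 2 := fun i => hφ _
    choose Ψ β hΨ hβ hΨβ using fun i => hcor i _ (hcoef i)
    -- the remainder
    have hdec : ∀ h v, φ (q (h, v)) = φ (q (h, 0)) + ∑ i, φ (q (0, Pi.single i 1)) * v i := by
      intro h v
      have e1 : ((h, v) : G) = (h, 0) + ∑ i, v i • ((0, Pi.single i 1) : G) := by
        refine Prod.ext ?_ ?_
        · simp [Prod.fst_sum]
        · funext k
          simp [Prod.snd_sum, Finset.sum_apply, Pi.single_apply]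
      rw [e1, map_add, map_add, map_sum, map_sum]
      congr 1
      refine Finset.sum_congr rfl (fun i _ => ?_)
      rw [map_smul, map_smul, smul_eq_mul, mul_comm]
    let γ0 : H →ₗ[R] R := φ ∘ₗ q ∘ₗ LinearMap.inl R H (Fin r → R) - ∑ i, β i
    have hγ0 : ∀ h, γ0 h = φ (q (h, 0)) - ∑ i, β i h := fun h => by
      simp only [γ0, LinearMap.sub_apply, LinearMap.comp_apply, LinearMap.sum_apply]
      rfl
    have hrem : ∀ h v, φ (q (h, v)) = γ0 h + ∑ i, Ψ i (q (h, v)) := by
      intro h v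
      rw [hdec, hγ0]
      simp only [hΨβ]
      rw [Finset.sum_add_distrib]
      ring
    have hγker : ∀ k, γ0 (inc M k) = 0 := by
      intro k
      have h1 := hrem (inc M k) (fun i => θ i k)
      have h2 : q (inc M k, fun i => θ i k) = 0 := hs.comp_eq_zero k
      rw [h2] at h1
      simpa using h1.symm
    obtain ⟨γ, hγ⟩ := (ses M).desc γ0 hγker
    have hγm : γ ∈ maximalIdeal R • (⊤ : Submodule R (M.C →ₗ[R] R)) := by
      apply hP
      intro x
      obtain ⟨h, rfl⟩ := cov_surj M x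
      rw [hγ, hγ0]
      exact sub_mem (hφ _) (Submodule.sum_mem _ (fun i _ => hβ i h))
    have hfin : φ = γ ∘ₗ ε + ∑ i, Ψ i := by
      apply LinearMap.ext
      intro z
      obtain ⟨⟨h, v⟩, rfl⟩ := hs.surj z
      rw [LinearMap.add_apply, LinearMap.comp_apply, hε, LinearMap.comp_apply,
        hpH, hγ, LinearMap.sum_apply]
      exact hrem h v
    rw [hfin]
    exact Submodule.add_mem _ (mem_smul_comp hγm ε) (Submodule.sum_mem _ (fun i _ => hΨ i))

end A

end EA7
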