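import Pool.Agent.Lib.MP_ea7a64_al_h50.Main

/-!
# The residue field as a module, the vanishing predicate `V`, generator counts
-/

set_option autoImplicit false
set_option linter.unusedSectionVars false

open IsLocalRing

namespace EA7

section V

variable (R : Type) [CommRing R] [IsNoetherianRing R] [IsLocalRing R]

/-- the residue field as a bundled module -/
noncomputable def kk : FM R := ⟨ResidueField R⟩

variable {R}

/-- `Ext^i(k,N) → Ext^i(k,N/S)` is zero. -/
def V {N : Type} [AddCommGroup N] [Module R N] (S : Submodule R N) : ℕ → Prop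
  | 0 => ∀ n : N, (∀ y ∈ maximalIdeal R, y • n = 0) → n ∈ S
  | i + 1 => EZ S (Sy (kk R) i).C

/-- the maximal ideal is not generated by `n` elements. -/
def NG (R : Type) [CommRing R] [IsLocalRing R] (n : ℕ) : Prop :=
  ∀ ys : Fin n → R, (∀ i, ys i ∈ maximalIdeal R) →
    ¬ maximalIdeal R ≤ Ideal.span (Set.range ys)

/-- surjections `M → R/I`, `m² ≤ I`, force `m` to be generated modulo `I` by `j` elements. -/
def Ac (R : Type) [CommRing R] [IsLocalRing R] (j : ℕ) (M : Type) [AddCommGroup M] [Module R M] :
    Prop :=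
  ∀ I : Ideal R, maximalIdeal R ^ 2 ≤ I → ∀ f : M →ₗ[R] R ⧸ I, Function.Surjective f →
    ∃ ys : Fin j → R, (∀ i, ys i ∈ maximalIdeal R) ∧
      maximalIdeal R ≤ I ⊔ Ideal.span (Set.range ys)

end V

end EA7
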